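import Pool.Agent.K1H14.BB.Step
import Pool.Agent.Y148.BB.Curve

/-!
# Homologically trivial correspondences between points and between curves
-/

open CategoryTheory AlgebraicGeometry

universe u v w x

namespace Pool.Agent.K1H14.BB

open Pool.Agent.H914 Pool.Agent.H914.VarClass Pool.Agent.H914.VarClass.Obj Pool.Agent.W492.BB
  Pool.Agent.W550.Corr Pool.Agent.TH133 Pool.Agent.Y152.AS Pool.Agent.R904.CM
open Pool.Agent.TH829.Kim (base_pull)
open Pool.Agent.R904.Voi (vl pull_vl vl_univ vl_mem vl_add vl_sub vl_smul vl_pull vl_fst vl_snd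
  vl_tp vl_comp vl_sum ext_vl)
open Pool.Agent.Y148.BB (hasDegree_of_ne)

set_option linter.unusedSectionVars false

variable {k : Type u} [Field k] {𝒱 : VarClass k} {C : TheoryData.{u, v, 0} 𝒱 ℚ}
  [hC : IsChowProj C] {K : Type w} [Field K] {H : WeilTheoryData.{u, v, w} C K}
  [hH : IsWeilProj H] {X Y Z : 𝒱.Obj}

/-- Every class is a sum of homogeneous classes of degrees `0, …, dim X`. -/
lemma exists_parts (z : C.A X) : ∃ p : ℕ → C.A X, (∀ i : ℕ, p i ∈ C.gr X i) ∧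
    z = ∑ i ∈ Finset.range (X.dim + 1), p i := by
  have htop : z ∈ ⨆ i, C.gr X i := by
    rw [(C.isInternal X).submodule_iSup_eq_top]; trivial
  refine Submodule.iSup_induction (p := C.gr X) (motive := fun z => ∃ p : ℕ → C.A X,
    (∀ i : ℕ, p i ∈ C.gr X i) ∧ z = ∑ i ∈ Finset.range (X.dim + 1), p i) htop ?_ ?_ ?_
  · intro j x hx
    by_cases hx0 : x = 0
    · exact ⟨fun _ => 0, fun i => Submodule.zero_mem _, by simp [hx0]⟩
    have hnn : 0 ≤ j := by
      by_contra hlt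
      rw [C.gr_neg X j (by omega)] at hx
      exact hx0 ((Submodule.mem_bot _).1 hx)
    have hle : j ≤ X.dim := by
      by_contra hlt
      exact hx0 (hC.gr_top X j _ hx (by omega))
    obtain ⟨i, rfl⟩ := Int.eq_ofNat_of_zero_le hnn
    refine ⟨fun l => if l = i then x else 0, fun l => ?_, ?_⟩
    · simp only
      split_ifs with h
      · rw [h]; exact hx
      · exact Submodule.zero_mem _
    · rw [Finset.sum_ite_eq' (Finset.range (X.dim + 1)) i (fun _ => x), if_pos]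
      rw [Finset.mem_range]
      omega
  · exact ⟨fun _ => 0, fun i => Submodule.zero_mem _, by simp⟩
  · rintro x y ⟨p, hp, rfl⟩ ⟨q, hq, rfl⟩
    exact ⟨fun i => p i + q i, fun i => Submodule.add_mem _ (hp i) (hq i), by
      rw [Finset.sum_add_distrib]⟩

/-- The homogeneous parts of homologically trivial classes are homologically trivial. -/
lemma cl_parts {p : ℕ → C.A X} (hp : ∀ i : ℕ, p i ∈ C.gr X i) {n : ℕ}
    (h : H.cl (∑ i ∈ Finset.range n, p i) = 0) : ∀ i ∈ Finset.range n, H.cl (p i) = 0 := by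
  classical
  have hind := (H.isInternal X).submodule_iSupIndep
  have h1 := ((iSupIndep_iff_finsetSum_eq_zero_imp_eq_zero _).1 hind)
    ((Finset.range n).image fun i : ℕ => 2 * (i : ℤ)) (fun j => H.cl (p (j.toNat / 2))) ?_ ?_
  · intro i hi
    have h2 := h1 (2 * (i : ℤ)) (Finset.mem_image_of_mem _ hi)
    have e : (2 * (i : ℤ)).toNat / 2 = i := by omega
    simp only [e] at h2
    exact h2
  · intro j hj
    obtain ⟨i, _, rfl⟩ := Finset.mem_image.1 hj
    have e : (2 * (i : ℤ)).toNat / 2 = i := by omega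
    simp only [e]
    exact H.cl_mem (hp i)
  · rw [Finset.sum_image (fun a _ b _ hab => by simpa using hab)]
    rw [map_sum] at h
    rw [← h]
    refine Finset.sum_congr rfl fun i _ => ?_
    have e : (2 * (i : ℤ)).toNat / 2 = i := by omega
    simp only [e]

lemma cl_one_ne (X : 𝒱.Obj) : H.cl (1 : C.A X) ≠ 0 := by
  rw [map_one]
  exact hH.one_ne_zero X

/-- Homologically trivial classes of codimension zero vanish. -/
lemma deg_zero {z : C.A X} (hz : z ∈ C.gr X 0) (h : H.cl z = 0) : z = 0 := by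
  obtain ⟨q, rfl⟩ := hC.gr_zero X z hz
  by_contra hne
  have hq : q ≠ 0 := by
    rintro rfl
    exact hne (zero_smul _ _)
  have h1 := cl_smul' (H := H) q⁻¹ h
  rw [smul_smul, inv_mul_cancel₀ hq, one_smul] at h1
  exact cl_one_ne X h1

variable (H) in
/-- Homologically trivial correspondences between varieties of dimension zero vanish. -/
theorem nilp_points {I : Type x} {o : I → 𝒱.Obj} (ho : ∀ i, (o i).dim = 0) :
    Nilp C (homF H o) 1 := by
  intro i j g hg
  change C.comp g (dg C (o i)) = 0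
  rw [comp_dg]
  have hg' : H.cl g = 0 := hg
  obtain ⟨p, hp, rfl⟩ := exists_parts g
  have hd : ((o j).prod (o i)).dim = 0 := by rw [dim_prod, ho, ho]
  rw [hd, zero_add, Finset.sum_range_one] at hg' ⊢
  exact deg_zero (hp 0) hg'

/-! ### Curves -/

lemma smul_one_eq_zero {q : ℚ} (h : H.cl (q • (1 : C.A X)) = 0) : q = 0 := by
  by_contra hq
  have h1 := cl_smul' (H := H) q⁻¹ h
  rw [smul_smul, inv_mul_cancel₀ hq, one_smul] at h1
  exact cl_one_ne X h1

/-- Homologically trivial zero-cycles have degree zero. -/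
lemma hasDegree_zero {x : C.A X} (hx : x ∈ C.gr X X.dim) (h : H.cl x = 0) : HasDegree C x 0 := by
  obtain ⟨q, hq⟩ := exists_hasDegree hx
  have h1 : q = 0 := by
    apply smul_one_eq_zero (H := H) (X := X)
    rw [← (hq X).1, H.cl_push, H.cl_pull, h, map_zero, map_zero]
  rwa [h1] at hq

lemma comp_ext_act (v : C.A X) (α : C.A Y) (Γ : C.A (Y.prod Z)) :
    C.comp (C.ext v α) Γ = C.ext v (C.act Γ α) := by
  apply ext_vl
  intro W x z
  have e1 : ∀ {X Y W : 𝒱.Obj} (a : C.A X) (b : C.A Y) (x : W ⟶ X) (y : W ⟶ Y),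
      vl C (C.ext a b) x y = C.pull x a * C.pull y b := by
    intro X Y W a b x y
    rw [vl, TheoryData.ext, map_mul, ← C.pull_comp, ← C.pull_comp, lift_fst, lift_snd]
  rw [vl_comp, e1, e1, R904.Voi.pull_act, ← int_pull, ← C.pull_comp, mul_assoc,
    ch_comm C (C.pull (snd W Y) α)]

/-- Sums of classes of degree zero on the two factors. -/
def T1 (C : TheoryData.{u, v, 0} 𝒱 ℚ) {X Y : 𝒱.Obj} (g : C.A (X.prod Y)) : Prop :=
  ∃ (a : C.A X) (b : C.A Y), a ∈ C.gr X 1 ∧ b ∈ C.gr Y 1 ∧ HasDegree C a 0 ∧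
    HasDegree C b 0 ∧ g = C.ext a 1 + C.ext 1 b

lemma push_snd_one (hd : 0 < X.dim) : C.push (snd X Y) (1 : C.A (X.prod Y)) = 0 := by
  have h := C.push_mem (snd X Y) (C.one_mem (X.prod Y))
  rw [C.gr_neg] at h
  · exact (Submodule.mem_bot _).1 h
  · rw [dim_prod]
    push_cast
    have : (0 : ℤ) < X.dim := by exact_mod_cast hd
    linarith

lemma T1.of_pic (hpic : PicardOfProducts H) (hX : X.dim = 1) (hY : Y.dim = 1)
    {g : C.A (X.prod Y)} (hg : g ∈ C.gr (X.prod Y) 1) (hcl : H.cl g = 0) : T1 C g := by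
  obtain ⟨a, b, ha, hb, rfl⟩ := hpic X Y g hX hY hg hcl
  have ha' : a ∈ C.gr X X.dim := by rw [hX]; exact ha
  have hb' : b ∈ C.gr Y Y.dim := by rw [hY]; exact hb
  obtain ⟨p, hp⟩ := exists_hasDegree ha'
  obtain ⟨q, hq⟩ := exists_hasDegree hb'
  have hp0 : p = 0 := by
    apply smul_one_eq_zero (H := H) (X := Y)
    have h1 : C.push (snd X Y) (C.pull (fst X Y) a + C.pull (snd X Y) b) = p • 1 := by
      have h2 := C.proj_left (snd X Y) 1 b
      rw [mul_one, push_snd_one (by rw [hX]; norm_num), mul_zero] at h2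
      rw [map_add, h2, add_zero]
      exact (hp Y).1
    rw [← h1, H.cl_push, hcl, map_zero]
  have hq0 : q = 0 := by
    apply smul_one_eq_zero (H := H) (X := X)
    have h1 : C.push (fst X Y) (C.pull (fst X Y) a + C.pull (snd X Y) b) = q • 1 := by
      have h2 := int_pull (Y := Y) a 1
      rw [mul_one, int_one (by rw [hY]; norm_num), mul_zero] at h2
      rw [map_add, h2, zero_add]
      exact (hq X).2
    rw [← h1, H.cl_push, hcl, map_zero]
  rw [hp0] at hp
  rw [hq0] at hq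
  refine ⟨a, b, ha, hb, hp, hq, ?_⟩
  rw [TheoryData.ext, TheoryData.ext, map_one, map_one, mul_one, one_mul]

lemma T1.comp (hY : Y.dim = 1) {g : C.A (X.prod Y)} {g' : C.A (Y.prod Z)}
    (hg : T1 C g) (hg' : T1 C g') : C.comp g g' = 0 := by
  obtain ⟨a, b, ha, hb, hda, hdb, rfl⟩ := hg
  obtain ⟨a', b', ha', hb', hda', hdb', rfl⟩ := hg'
  have e1 : HasDegree C ((1 : C.A Y) * a') 0 := by rw [one_mul]; exact hda'
  have e2 : HasDegree C ((1 : C.A Y) * 1) 0 := by
    rw [one_mul]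
    exact hasDegree_of_ne (C.one_mem Y) (by rw [hY]; norm_num)
  have e3 : HasDegree C (b * a') 0 :=
    hasDegree_of_ne (C.mul_mem hb ha') (by rw [hY]; norm_num)
  have e4 : HasDegree C (b * 1) 0 := by rw [mul_one]; exact hdb
  rw [W550.Corr.add_comp, W550.Corr.comp_add, W550.Corr.comp_add, comp_ext_ext e1,
    comp_ext_ext e2, comp_ext_ext e3, comp_ext_ext e4]
  simp

lemma T1.comp_comp {W : 𝒱.Obj} (hX : X.dim = 1) (hY : Y.dim = 1) (hZ : Z.dim = 1)
    {g : C.A (W.prod X)} {z : C.A (X.prod Y)} {g' : C.A (Y.prod Z)} (hg : T1 C g)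
    (hg' : T1 C g') (hz : z ∈ C.gr (X.prod Y) 2) (hcl : H.cl z = 0) :
    C.comp (C.comp g z) g' = 0 := by
  obtain ⟨a, b, ha, hb, hda, hdb, rfl⟩ := hg
  obtain ⟨a', b', ha', hb', hda', hdb', rfl⟩ := hg'
  have h1 : C.act z 1 ∈ C.gr Y 1 := by
    have := act_mem' C (e := 1) (Γ := z) (by rw [hX]; exact hz) (C.one_mem X)
    exact this
  have h2 : C.act z b = 0 := by
    have := act_mem' C (e := 1) (Γ := z) (by rw [hX]; exact hz) hb
    exact hC.gr_top Y _ _ this (by rw [hY]; norm_num)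
  have h3 : HasDegree C (C.act z 1) 0 := by
    refine hasDegree_zero (H := H) (by rw [hY]; exact h1) ?_
    rw [cl_act, hcl, TheoryData.act_zero]
  have e1 : HasDegree C (C.act z 1 * a') 0 :=
    hasDegree_of_ne (C.mul_mem h1 ha') (by rw [hY]; norm_num)
  have e2 : HasDegree C (C.act z 1 * 1) 0 := by rw [mul_one]; exact h3
  rw [W550.Corr.add_comp C (C.ext a 1), comp_ext_act, comp_ext_act, h2,
    TheoryData.ext_zero_right, add_zero, W550.Corr.comp_add, comp_ext_ext e1, comp_ext_ext e2]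
  simp

lemma curve_parts (hX : X.dim = 1) (hY : Y.dim = 1) {g : C.A (X.prod Y)} (hg : H.cl g = 0) :
    ∃ g₁ g₂ : C.A (X.prod Y), g₁ ∈ C.gr (X.prod Y) 1 ∧ g₂ ∈ C.gr (X.prod Y) 2 ∧ H.cl g₁ = 0 ∧
      H.cl g₂ = 0 ∧ g = g₁ + g₂ := by
  obtain ⟨p, hp, rfl⟩ := exists_parts g
  have h1 := cl_parts hp hg
  have hd : (X.prod Y).dim + 1 = 3 := by rw [dim_prod, hX, hY]
  have h0 : p 0 = 0 := deg_zero (hp 0) (h1 0 (by rw [hd]; decide))
  refine ⟨p 1, p 2, hp 1, hp 2, h1 1 (by rw [hd]; decide), h1 2 (by rw [hd]; decide), ?_⟩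
  rw [hd, Finset.sum_range_succ, Finset.sum_range_succ, Finset.sum_range_one, h0, zero_add]

/-- Three homologically trivial correspondences between curves compose to zero. -/
theorem nilp_curves (hpic : PicardOfProducts H) {I : Type x} {o : I → 𝒱.Obj}
    (ho : ∀ i, (o i).dim = 1) : Nilp C (homF H o) 3 := by
  intro i j₃ g₃ hg₃ j₂ g₂ hg₂ j₁ g₁ hg₁
  change C.comp g₁ (C.comp g₂ (C.comp g₃ (dg C (o i)))) = 0
  rw [comp_dg]
  obtain ⟨a₁, b₁, ha₁, hb₁, ca₁, cb₁, rfl⟩ := curve_parts (ho j₁) (ho j₂) hg₁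
  obtain ⟨a₂, b₂, ha₂, hb₂, ca₂, cb₂, rfl⟩ := curve_parts (ho j₂) (ho j₃) hg₂
  obtain ⟨a₃, b₃, ha₃, hb₃, ca₃, cb₃, rfl⟩ := curve_parts (ho j₃) (ho i) hg₃
  have t₁ := T1.of_pic hpic (ho j₁) (ho j₂) ha₁ ca₁
  have t₂ := T1.of_pic hpic (ho j₂) (ho j₃) ha₂ ca₂
  have t₃ := T1.of_pic hpic (ho j₃) (ho i) ha₃ ca₃
  -- compositions of two classes
  have z12 := t₁.comp (ho j₂) t₂
  have z23 := t₂.comp (ho j₃) t₃
  have hbb : ∀ {A B D : 𝒱.Obj} (_ : A.dim = 1) (_ : B.dim = 1) (_ : D.dim = 1)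
      {p : C.A (A.prod B)} {q : C.A (B.prod D)}, p ∈ C.gr (A.prod B) 2 → q ∈ C.gr (B.prod D) 2 →
      C.comp p q = 0 := by
    intro A B D hA hB hD p q hp hq
    have h1 := comp_mem C (e := 1) (e' := 1) (Γ := p) (Δ := q) (by rw [hA]; exact hp)
      (by rw [hB]; exact hq)
    exact hC.gr_top _ _ _ h1 (by rw [dim_prod, hA, hD]; norm_num)
  have y12 := hbb (ho j₁) (ho j₂) (ho j₃) hb₁ hb₂
  have y23 := hbb (ho j₂) (ho j₃) (ho i) hb₂ hb₃
  have h1 : C.comp a₁ (C.comp b₂ a₃) = 0 := by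
    rw [← W550.Corr.comp_assoc]
    exact t₁.comp_comp (ho j₂) (ho j₃) (ho i) t₃ hb₂ cb₂
  have h2 : C.comp b₁ (C.comp a₂ b₃) = 0 := by
    have h3 : C.comp b₁ a₂ ∈ C.gr ((o j₁).prod (o j₃)) 2 := by
      have := comp_mem C (e := 1) (e' := 0) (Γ := b₁) (Δ := a₂) (by rw [ho]; exact hb₁)
        (by rw [ho]; exact ha₂)
      rw [ho] at this
      exact this
    rw [← W550.Corr.comp_assoc]
    exact hbb (ho j₁) (ho j₃) (ho i) h3 hb₃
  have e : ∀ (p : C.A ((o j₁).prod (o j₂))) (q : C.A ((o j₂).prod (o j₃)))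
      (r : C.A ((o j₃).prod (o i))), C.comp p q = 0 → C.comp p (C.comp q r) = 0 := by
    intro p q r h
    rw [← W550.Corr.comp_assoc, h, W550.Corr.zero_comp]
  simp only [W550.Corr.comp_add, W550.Corr.add_comp]
  rw [z23, y23, h1, h2, e a₁ a₂ b₃ z12, e b₁ b₂ a₃ y12]
  simp [W550.Corr.comp_zero]

end Pool.Agent.K1H14.BB
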