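import Pool.Agent.R904.CM.Defs

/-!
# Compositions of homologically trivial correspondences: definitions
-/

open CategoryTheory AlgebraicGeometry

universe u v w

namespace Pool.Agent.K1H14.BB

open Pool.Agent.H914 Pool.Agent.H914.VarClass Pool.Agent.H914.VarClass.Obj Pool.Agent.W492.BB
  Pool.Agent.W550.Corr Pool.Agent.TH133 Pool.Agent.Y152.AS Pool.Agent.R904.CM

variable {k : Type u} [Field k] {𝒱 : VarClass k}

/-- `pw E n` is the power `E ^ (n + 1)`. -/
noncomputable def pw (E : 𝒱.Obj) : ℕ → 𝒱.Obj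
  | 0 => E
  | n + 1 => E.prod (pw E n)

/-- The variety `X` is dominated by the class `P` of varieties: the class of the diagonal of `X` is
a finite sum of compositions `b_s ∘ a_s` of correspondences `a_s : X → W_s` and `b_s : W_s → X`
with `W_s` in `P` (the correspondences may have any degrees). For example, this is so if `X` is the
target of a generically finite morphism from a variety in `P`, or if the motive of `X` is a direct
summand of a finite sum of twists of motives of varieties in `P`. -/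
def Dominated (C : TheoryData.{u, v, 0} 𝒱 ℚ) (P : 𝒱.Obj → Prop) (X : 𝒱.Obj) : Prop :=
  ∃ (m : ℕ) (W : Fin m → 𝒱.Obj) (a : ∀ s, C.A (X.prod (W s))) (b : ∀ s, C.A ((W s).prod X)),
    (∀ s, P (W s)) ∧ dg C X = ∑ s, C.comp (a s) (b s)

section comp

variable {C : TheoryData.{u, v, 0} 𝒱 ℚ} {K : Type w} [Field K]

/-- `IsComposite H P n g`: the correspondence `g` is the composition of `n` homologically trivial
correspondences `X_0 → X_1 → ⋯ → X_n`, of any degrees, between varieties `X_i` in the class `P`. -/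
inductive IsComposite (H : WeilTheoryData.{u, v, w} C K) (P : 𝒱.Obj → Prop) :
    ℕ → ∀ {X Y : 𝒱.Obj}, C.A (X.prod Y) → Prop
  | nil (X : 𝒱.Obj) (hX : P X) : IsComposite H P 0 (dg C X)
  | cons {n : ℕ} (X Y Z : 𝒱.Obj) (f : C.A (X.prod Y)) (g : C.A (Y.prod Z)) (hX : P X)
      (hf : H.cl f = 0) (hg : IsComposite H P n g) : IsComposite H P (n + 1) (C.comp f g)

/-- Any `N` homologically trivial correspondences `X_0 → X_1 → ⋯ → X_N`, of any degrees, between
varieties in the class `P` have composition zero. -/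
def HasIndex (H : WeilTheoryData.{u, v, w} C K) (P : 𝒱.Obj → Prop) (N : ℕ) : Prop :=
  ∀ (X Y : 𝒱.Obj) (g : C.A (X.prod Y)), IsComposite H P N g → g = 0

/-- `F ν X j` is a subgroup `F^ν CH^j(X)_ℚ` of `CH^j(X)_ℚ` for every variety `X` in the class `P`
and every `j`; for fixed `X` and `j` it is a decreasing filtration with `F^0 CH^j(X) = CH^j(X)`,
`F^1 CH^j(X)` is the group of homologically trivial cycles and `F^L CH^j(X) = 0`; any correspondence
`Γ ∈ CH^l(X × Y)_ℚ` maps `F^ν CH^j(X)` to `F^ν CH^(j + l - dim X)(Y)`, and to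
`F^(ν + 1) CH^(j + l - dim X)(Y)` if `Γ` is homologically trivial. -/
structure IsWeakBB (H : WeilTheoryData.{u, v, w} C K) (P : 𝒱.Obj → Prop) (L : ℕ)
    (F : ℕ → ∀ X : 𝒱.Obj, ℤ → Submodule ℚ (C.A X)) : Prop where
  anti : ∀ (X : 𝒱.Obj) (j : ℤ) (ν : ℕ), P X → F (ν + 1) X j ≤ F ν X j
  zero : ∀ (X : 𝒱.Obj) (j : ℤ), P X → F 0 X j = C.gr X j
  one : ∀ (X : 𝒱.Obj) (j : ℤ) (z : C.A X), P X → (z ∈ F 1 X j ↔ C.Deg j z ∧ H.cl z = 0)
  last : ∀ (X : 𝒱.Obj) (j : ℤ), P X → F L X j = ⊥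
  act : ∀ (X Y : 𝒱.Obj) (j l : ℤ) (ν : ℕ) (Γ : C.A (X.prod Y)) (z : C.A X), P X → P Y →
    C.Deg l Γ → z ∈ F ν X j → C.act Γ z ∈ F ν Y (j + l - X.dim)
  act_hom : ∀ (X Y : 𝒱.Obj) (j l : ℤ) (ν : ℕ) (Γ : C.A (X.prod Y)) (z : C.A X), P X → P Y →
    C.Deg l Γ → H.cl Γ = 0 → z ∈ F ν X j → C.act Γ z ∈ F (ν + 1) Y (j + l - X.dim)

end comp

/-- `CMProducts C P m Q`: there are elliptic curves `E_1, …, E_r` with complex multiplication and
integers `n_1, …, n_r ≥ 1` such that `m = (2 n_1 + 1) ⋯ (2 n_r + 1)` and `Q` is the class of the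
varieties `E_r ^ i_r × (⋯ × (E_1 ^ i_1 × Y))` with `Y` in `P` and `1 ≤ i_s ≤ n_s` for all `s`. (The
curves need not be isogenous.) -/
inductive CMProducts (C : TheoryData.{u, v, 0} 𝒱 ℚ) (P : 𝒱.Obj → Prop) :
    ℕ → (𝒱.Obj → Prop) → Prop
  | base : CMProducts C P 1 P
  | step {m : ℕ} {Q : 𝒱.Obj → Prop} (h : CMProducts C P m Q) (E : 𝒱.Obj) [GroupLaw E]
      (u : E ⟶ E) (d : ℕ) (hE : IsCMCurve C E u d) (n : ℕ) :
      CMProducts C P ((2 * (n + 1) + 1) * m)
        (fun W => ∃ (Y : 𝒱.Obj) (i : ℕ), Q Y ∧ i ≤ n ∧ W = (pw E i).prod Y)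

end Pool.Agent.K1H14.BB
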