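import Pool.Agent.K1H14.BB.Final

/-!
# Retracts and the filtration by powers of the ideal
-/

open CategoryTheory AlgebraicGeometry

universe u v w x

namespace Pool.Agent.K1H14.BB

open Pool.Agent.H914 Pool.Agent.H914.VarClass Pool.Agent.H914.VarClass.Obj Pool.Agent.W492.BB
  Pool.Agent.W550.Corr Pool.Agent.TH133 Pool.Agent.Y152.AS Pool.Agent.R904.CM
open Pool.Agent.R904.Voi (vl pull_vl vl_univ vl_mem vl_add vl_sub vl_smul vl_pull vl_fst vl_snd
  vl_tp vl_comp vl_sum ext_vl)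

set_option linter.unusedSectionVars false

variable {k : Type u} [Field k] {𝒱 : VarClass k} {C : TheoryData.{u, v, 0} 𝒱 ℚ}
  [hC : IsChowProj C] {K : Type w} [Field K] {H : WeilTheoryData.{u, v, w} C K}
  [hH : IsWeilProj H] {X Y Z W : 𝒱.Obj} {P Q : 𝒱.Obj → Prop}

/-- The motive of `X` is a direct summand of the motive of `Y`, up to a shift. -/
def Retract (C : TheoryData.{u, v, 0} 𝒱 ℚ) (X Y : 𝒱.Obj) : Prop :=
  ∃ (a : C.A (X.prod Y)) (b : C.A (Y.prod X)), C.comp a b = dg C X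

lemma Retract.refl (X : 𝒱.Obj) : Retract C X X := ⟨dg C X, dg C X, dg_comp C _⟩

lemma Retract.trans (h : Retract C X Y) (h' : Retract C Y Z) : Retract C X Z := by
  obtain ⟨a, b, hab⟩ := h
  obtain ⟨a', b', hab'⟩ := h'
  refine ⟨C.comp a a', C.comp b' b, ?_⟩
  rw [comp_assoc, ← comp_assoc C a' b' b, hab', dg_comp, hab]

/-- `X` is a retract of `X × Y`. -/
lemma retract_left (X Y : 𝒱.Obj) : Retract C X (X.prod Y) := by
  obtain ⟨e, he, he1, he2⟩ := exists_deg_one C Y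
  refine ⟨vl C (dg C X) (fst X (X.prod Y)) (snd X (X.prod Y) ≫ fst X Y) *
    C.pull (snd X (X.prod Y) ≫ snd X Y) e,
    vl C (dg C X) (fst (X.prod Y) X ≫ fst X Y) (snd (X.prod Y) X), ?_⟩
  apply ext_vl
  intro W x z
  rw [vl_comp, fubini]
  have e1 : ∀ {V : 𝒱.Obj} (p : V ⟶ X) (q : V ⟶ X.prod Y),
      vl C (vl C (dg C X) (fst X (X.prod Y)) (snd X (X.prod Y) ≫ fst X Y) *
        C.pull (snd X (X.prod Y) ≫ snd X Y) e) p q =
      vl C (dg C X) p (q ≫ fst X Y) * C.pull (q ≫ snd X Y) e := by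
    intro V p q
    rw [vl, map_mul, pull_vl, ← C.pull_comp, lift_fst, ← Category.assoc, ← Category.assoc,
      lift_snd]
  have e2 : ∀ {V : 𝒱.Obj} (q : V ⟶ X.prod Y) (p : V ⟶ X),
      vl C (vl C (dg C X) (fst (X.prod Y) X ≫ fst X Y) (snd (X.prod Y) X)) q p =
      vl C (dg C X) (q ≫ fst X Y) p := by
    intro V q p
    rw [vl, pull_vl, lift_snd, ← Category.assoc, lift_fst]
  rw [e1, e2, map_mul (C.pull (aI W X Y)), map_mul (C.pull (aI W X Y)), pull_vl, pull_vl,
    ← C.pull_comp]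
  have f1 : aI W X Y ≫ fst W (X.prod Y) = fst (W.prod X) Y ≫ fst W X := by simp [aI]
  have f2 : aI W X Y ≫ snd W (X.prod Y) ≫ fst X Y = fst (W.prod X) Y ≫ snd W X := by
    simp [aI]
  have f3 : aI W X Y ≫ snd W (X.prod Y) ≫ snd X Y = snd (W.prod X) Y := by simp [aI]
  rw [← Category.assoc, ← Category.assoc (aI W X Y) (fst W (X.prod Y)) z, f1, f2, f3]
  have e3 : vl C (dg C X) ((fst (W.prod X) Y ≫ fst W X) ≫ x) (fst (W.prod X) Y ≫ snd W X) =
      C.pull (fst (W.prod X) Y) (vl C (dg C X) (fst W X ≫ x) (snd W X)) := by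
    rw [pull_vl, Category.assoc]
  have e4 : vl C (dg C X) (fst (W.prod X) Y ≫ snd W X) ((fst (W.prod X) Y ≫ fst W X) ≫ z) =
      C.pull (fst (W.prod X) Y) (vl C (dg C X) (snd W X) (fst W X ≫ z)) := by
    rw [pull_vl, Category.assoc]
  rw [e3, e4, mul_assoc, ch_comm C (C.pull (snd (W.prod X) Y) e), ← mul_assoc, ← map_mul,
    int_pull, he1, mul_one, int_dg, pull_vl, lift_snd, ← Category.assoc, lift_fst,
    Category.id_comp]

/-- `Y` is a retract of `X × Y`. -/
lemma retract_right (X Y : 𝒱.Obj) : Retract C Y (X.prod Y) := by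
  obtain ⟨e, he, he1, he2⟩ := exists_deg_one C X
  refine ⟨vl C (dg C Y) (fst Y (X.prod Y)) (snd Y (X.prod Y) ≫ snd X Y) *
    C.pull (snd Y (X.prod Y) ≫ fst X Y) e,
    vl C (dg C Y) (fst (X.prod Y) Y ≫ snd X Y) (snd (X.prod Y) Y), ?_⟩
  apply ext_vl
  intro W x z
  rw [vl_comp, fubini]
  have e1 : ∀ {V : 𝒱.Obj} (p : V ⟶ Y) (q : V ⟶ X.prod Y),
      vl C (vl C (dg C Y) (fst Y (X.prod Y)) (snd Y (X.prod Y) ≫ snd X Y) *
        C.pull (snd Y (X.prod Y) ≫ fst X Y) e) p q =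
      vl C (dg C Y) p (q ≫ snd X Y) * C.pull (q ≫ fst X Y) e := by
    intro V p q
    rw [vl, map_mul, pull_vl, ← C.pull_comp, lift_fst, ← Category.assoc, ← Category.assoc,
      lift_snd]
  have e2 : ∀ {V : 𝒱.Obj} (q : V ⟶ X.prod Y) (p : V ⟶ Y),
      vl C (vl C (dg C Y) (fst (X.prod Y) Y ≫ snd X Y) (snd (X.prod Y) Y)) q p =
      vl C (dg C Y) (q ≫ snd X Y) p := by
    intro V q p
    rw [vl, pull_vl, lift_snd, ← Category.assoc, lift_fst]
  rw [e1, e2, map_mul (C.pull (aI W X Y)), map_mul (C.pull (aI W X Y)), pull_vl, pull_vl,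
    ← C.pull_comp]
  have f1 : aI W X Y ≫ fst W (X.prod Y) = fst (W.prod X) Y ≫ fst W X := by simp [aI]
  have f2 : aI W X Y ≫ snd W (X.prod Y) ≫ fst X Y = fst (W.prod X) Y ≫ snd W X := by
    simp [aI]
  have f3 : aI W X Y ≫ snd W (X.prod Y) ≫ snd X Y = snd (W.prod X) Y := by simp [aI]
  rw [← Category.assoc, ← Category.assoc (aI W X Y) (fst W (X.prod Y)) z, f1, f2, f3]
  have e3 : C.pull (fst (W.prod X) Y ≫ snd W X) e =
      C.pull (fst (W.prod X) Y) (C.pull (snd W X) e) := by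
    rw [← C.pull_comp]
  have e5 : (fst (W.prod X) Y ≫ fst W X) ≫ x = fst (W.prod X) Y ≫ (fst W X ≫ x) :=
    Category.assoc _ _ _
  rw [e3, e5, mul_assoc, int_dg, map_mul, pull_vl, ← C.pull_comp, lift_fst, C.pull_id,
    lift_snd, ← Category.assoc, ← Category.assoc, lift_fst, Category.id_comp, ← pull_vl,
    ch_comm C, int_pull, he1, mul_one]

lemma Retract.dominated (h : Retract C X Y) (hY : P Y) : Dominated C P X := by
  obtain ⟨a, b, hab⟩ := h
  refine ⟨1, fun _ => Y, fun _ => a, fun _ => b, fun _ => hY, ?_⟩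
  rw [Finset.sum_const, Finset.card_univ, Fintype.card_fin, one_smul, hab]

lemma retract_pw (E : 𝒱.Obj) {m n : ℕ} (h : m ≤ n) : Retract C (pw E m) (pw E n) := by
  induction n, h using Nat.le_induction with
  | base => exact Retract.refl _
  | succ n _ ih => exact ih.trans (retract_right E (pw E n))

lemma Retract.prod (h : Retract C X Z) (Y : 𝒱.Obj) : Retract C (X.prod Y) (Z.prod Y) := by
  obtain ⟨a, b, hab⟩ := h
  refine ⟨tens C a (dg C Y), tens C b (dg C Y), ?_⟩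
  rw [tens_comp C (ch_comm C), hab, dg_comp, tens_dg]

/-- Products of powers of elliptic curves with complex multiplication. -/
theorem HasIndex.products {N m : ℕ} (h : HasIndex H P N) (hQ : CMProducts C P m Q) :
    HasIndex H Q (m * N) := by
  induction hQ with
  | base => rwa [one_mul]
  | step hQ E u d hE n ih =>
    rw [mul_assoc]
    refine HasIndex.mono (ih.step hE n).dominated ?_
    rintro _ ⟨Y, i, hY, hi, rfl⟩
    exact ((retract_pw E hi).prod Y).dominated ⟨Y, hY, rfl⟩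

/-! ### The filtration -/

lemma IsComposite.right_mem {n : ℕ} {g : C.A (X.prod Y)} (h : IsComposite H P n g) : P Y := by
  induction h with
  | nil X hX => exact hX
  | cons X Y Z f g hX hf hg ih => exact ih

lemma IsComposite.cl_eq_zero {n : ℕ} {g : C.A (X.prod Y)} (h : IsComposite H P (n + 1) g) :
    H.cl g = 0 := by
  cases h with
  | cons _ _ _ f g hX hf hg => exact cl_comp_right _ hf

lemma IsComposite.comp_aux {n : ℕ} {g : C.A (X.prod Y)} (h : IsComposite H P n g) {V : 𝒱.Obj}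
    {f : C.A (V.prod X)} (hV : P V) (hf : H.cl f = 0) (hZ : P Z) (Γ : C.A (Y.prod Z)) :
    IsComposite H P (n + 1) (C.comp f (C.comp g Γ)) := by
  induction h generalizing V with
  | nil X hX =>
    rw [dg_comp, ← comp_dg C (C.comp f Γ)]
    exact IsComposite.cons _ _ _ _ _ hV (cl_comp_right _ hf) (IsComposite.nil _ hZ)
  | cons X Y W f' g hX hf' hg ih =>
    rw [comp_assoc]
    exact IsComposite.cons _ _ _ _ _ hV hf (ih hX hf' Γ)

lemma IsComposite.comp_right {n : ℕ} {g : C.A (X.prod Y)} (h : IsComposite H P (n + 1) g)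
    (hZ : P Z) (Γ : C.A (Y.prod Z)) : IsComposite H P (n + 1) (C.comp g Γ) := by
  cases h with
  | cons _ _ _ f g hX hf hg =>
    rw [comp_assoc]
    exact hg.comp_aux hX hf hZ Γ

/-- The action of the compositions of `ν` homologically trivial correspondences. -/
noncomputable def fil (H : WeilTheoryData.{u, v, w} C K) (P : 𝒱.Obj → Prop) (ν : ℕ) (X : 𝒱.Obj) :
    Submodule ℚ (C.A X) :=
  Submodule.span ℚ {z | ∃ (W : 𝒱.Obj) (g : C.A (W.prod X)) (y : C.A W),
    IsComposite H P ν g ∧ z = C.act g y}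

lemma fil_zero (hX : P X) : fil H P 0 X = ⊤ := by
  rw [eq_top_iff]
  intro z _
  exact Submodule.subset_span ⟨X, dg C X, z, IsComposite.nil X hX, (act_dg C z).symm⟩

lemma fil_succ_le (ν : ℕ) : fil H P (ν + 1) X ≤ fil H P ν X := by
  refine Submodule.span_le.2 ?_
  rintro _ ⟨W, g, y, hg, rfl⟩
  cases hg with
  | cons _ Y _ f g hX hf hg =>
    refine Submodule.subset_span ⟨Y, g, C.act f y, hg, ?_⟩
    rw [C.act_comp]

lemma mem_fil_one (hX : P X) {z : C.A X} : z ∈ fil H P 1 X ↔ H.cl z = 0 := by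
  constructor
  · intro hz
    refine Submodule.span_induction (p := fun z _ => H.cl z = 0) ?_ (map_zero _)
      (fun a b _ _ ha hb => by rw [map_add, ha, hb, add_zero])
      (fun q a _ ha => cl_smul' q ha) hz
    rintro _ ⟨W, g, y, hg, rfl⟩
    rw [cl_act, hg.cl_eq_zero, TheoryData.act_zero]
  · intro hz
    obtain ⟨e, he, he1, he2⟩ := exists_deg_one C X
    have hd : HasDegree C ((1 : C.A X) * e) 1 := by
      intro Y
      rw [one_mul, one_smul]
      exact ⟨he2 Y, he1 Y⟩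
    refine Submodule.subset_span ⟨X, C.comp (C.ext 1 z) (dg C X), e, ?_, ?_⟩
    · refine IsComposite.cons _ _ _ _ _ hX ?_ (IsComposite.nil X hX)
      rw [TheoryData.ext, map_mul, H.cl_pull, H.cl_pull, hz, map_zero, mul_zero]
    · rw [comp_dg, act_ext' hd, one_smul]

lemma act_mem_fil (hY : P Y) {ν : ℕ} (Γ : C.A (X.prod Y)) {z : C.A X} (hz : z ∈ fil H P ν X) :
    C.act Γ z ∈ fil H P ν Y := by
  rcases ν with _ | ν
  · rw [fil_zero hY]
    trivial
  have h : fil H P (ν + 1) X ≤ (fil H P (ν + 1) Y).comap (C.actL Γ) := by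
    refine Submodule.span_le.2 ?_
    rintro _ ⟨W, g, y, hg, rfl⟩
    refine Submodule.subset_span ⟨W, C.comp g Γ, y, hg.comp_right hY Γ, ?_⟩
    rw [C.act_comp]
    rfl
  exact h hz

lemma act_hom_mem_fil (hY : P Y) {ν : ℕ} {Γ : C.A (X.prod Y)} (hΓ : H.cl Γ = 0) {z : C.A X}
    (hz : z ∈ fil H P ν X) : C.act Γ z ∈ fil H P (ν + 1) Y := by
  have h : fil H P ν X ≤ (fil H P (ν + 1) Y).comap (C.actL Γ) := by
    refine Submodule.span_le.2 ?_
    rintro _ ⟨W, g, y, hg, rfl⟩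
    refine Submodule.subset_span ⟨W, C.comp g Γ, y, hg.snoc hY hΓ, ?_⟩
    rw [C.act_comp]
    rfl
  exact h hz

lemma fil_eq_bot {N : ℕ} (h : HasIndex H P N) : fil H P N X = ⊥ := by
  rw [eq_bot_iff]
  refine Submodule.span_le.2 ?_
  rintro _ ⟨W, g, y, hg, rfl⟩
  rw [h _ _ g hg, TheoryData.act_zero]
  rfl

/-- The filtration by the powers of the ideal of the homologically trivial correspondences. -/
theorem exists_weakBB {N : ℕ} (h : HasIndex H P N) : ∃ F, IsWeakBB H P N F := by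
  refine ⟨fun ν X j => fil H P ν X ⊓ C.gr X j, ?_, ?_, ?_, ?_, ?_, ?_⟩
  · intro X j ν _
    exact inf_le_inf_right _ (fil_succ_le ν)
  · intro X j hX
    rw [fil_zero hX, top_inf_eq]
  · intro X j z hX
    rw [Submodule.mem_inf, mem_fil_one hX, and_comm]
  · intro X j _
    rw [fil_eq_bot h, bot_inf_eq]
  · rintro X Y j l ν Γ z _ hY hΓ ⟨hz, hz'⟩
    refine ⟨act_mem_fil hY Γ hz, ?_⟩
    have h1 := act_mem' C (e := l - X.dim) (Γ := Γ)
      (by rw [add_sub_cancel]; exact hΓ) hz'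
    rwa [← add_sub_assoc] at h1
  · rintro X Y j l ν Γ z _ hY hΓ hcl ⟨hz, hz'⟩
    refine ⟨act_hom_mem_fil hY hcl hz, ?_⟩
    have h1 := act_mem' C (e := l - X.dim) (Γ := Γ)
      (by rw [add_sub_cancel]; exact hΓ) hz'
    rwa [← add_sub_assoc] at h1

end Pool.Agent.K1H14.BB
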