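import Pool.Agent.K1H14.BB.Base

/-!
# The index of compositions of homologically trivial correspondences
-/

open CategoryTheory AlgebraicGeometry

universe u v w x

namespace Pool.Agent.K1H14.BB

open Pool.Agent.H914 Pool.Agent.H914.VarClass Pool.Agent.H914.VarClass.Obj Pool.Agent.W492.BB
  Pool.Agent.W550.Corr Pool.Agent.TH133 Pool.Agent.Y152.AS Pool.Agent.R904.CM
open Pool.Agent.R904.Voi (vl pull_vl vl_univ vl_mem vl_add vl_sub vl_smul vl_pull vl_fst vl_snd
  vl_tp vl_comp vl_sum ext_vl)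

set_option linter.unusedSectionVars false

variable {k : Type u} [Field k] {𝒱 : VarClass k} {C : TheoryData.{u, v, 0} 𝒱 ℚ}
  [hC : IsChowProj C] {K : Type w} [Field K] {H : WeilTheoryData.{u, v, w} C K}
  [hH : IsWeilProj H] {X Y Z : 𝒱.Obj} {P Q : 𝒱.Obj → Prop}

/-- The varieties of the class `P`. -/
abbrev vo (P : 𝒱.Obj → Prop) : {X : 𝒱.Obj // P X} → 𝒱.Obj := fun X => X.1

lemma IsComposite.snoc {n : ℕ} {g : C.A (X.prod Y)} (h : IsComposite H P n g) (hZ : P Z)
    {f : C.A (Y.prod Z)} (hf : H.cl f = 0) : IsComposite H P (n + 1) (C.comp g f) := by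
  induction h with
  | nil X hX =>
    rw [dg_comp, ← comp_dg C f]
    exact IsComposite.cons _ _ _ _ _ hX hf (IsComposite.nil _ hZ)
  | cons X Y W f' g hX hf' hg ih =>
    rw [comp_assoc]
    exact IsComposite.cons _ _ _ _ _ hX hf' (ih hf)

lemma IsComposite.left_mem {n : ℕ} {g : C.A (X.prod Y)} (h : IsComposite H P n g) : P X := by
  cases h with
  | nil _ hX => exact hX
  | cons _ _ _ _ _ hX _ _ => exact hX

/-- The left end of a composition in the sense of `Kill`. -/
lemma kill_of_composite {n m : ℕ} {g : C.A (X.prod Y)} (h : IsComposite H P n g) (hY : P Y)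
    {f : C.A (Y.prod Z)} (hf : Kill C (homF H (vo P)) (n + m) (i := ⟨Y, hY⟩) f) :
    Kill C (homF H (vo P)) m (i := ⟨X, h.left_mem⟩) (C.comp g f) := by
  induction h generalizing m with
  | nil X hX =>
    rw [zero_add] at hf
    have := hf
    rw [← dg_comp C f] at this
    exact this
  | @cons n' X Y' W f' g hX hf' hg ih =>
    have h1 := ih (m := m + 1) hY (by rw [← add_assoc, add_right_comm]; exact hf)
    have h2 := h1 ⟨X, hX⟩ f' hf'
    rw [← comp_assoc] at h2
    exact h2

lemma hasIndex_of_nilp {N : ℕ} (h : Nilp C (homF H (vo P)) N) : HasIndex H P N := by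
  intro X Y g hg
  have hP : ∀ {n : ℕ} {X Y : 𝒱.Obj} {g : C.A (X.prod Y)}, IsComposite H P n g → P Y := by
    intro n X Y g hg
    induction hg with
    | nil X hX => exact hX
    | cons X Y Z f g hX hf hg ih => exact ih
  have h1 := kill_of_composite (m := 0) hg (hP hg) (h ⟨Y, hP hg⟩)
  rwa [kill_zero, comp_dg] at h1

lemma nilp_of_hasIndex {N : ℕ} (h : HasIndex H P N) : Nilp C (homF H (vo P)) N := by
  have key : ∀ (n : ℕ) (i : {X : 𝒱.Obj // P X}) (Z : 𝒱.Obj) (f : C.A (i.1.prod Z)),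
      (∀ (X : 𝒱.Obj) (g : C.A (X.prod i.1)), IsComposite H P n g → C.comp g f = 0) →
      Kill C (homF H (vo P)) n (i := i) f := by
    intro n
    induction n with
    | zero =>
      intro i Z f hf
      have := hf i.1 _ (IsComposite.nil i.1 i.2)
      rw [dg_comp] at this
      exact this
    | succ n ih =>
      intro i Z f hf j g hg
      refine ih j Z _ fun X g' hg' => ?_
      have h1 := hf X _ (hg'.snoc i.2 hg)
      rw [comp_assoc] at h1
      exact h1
  intro i
  refine key N i i.1 _ fun X g hg => ?_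
  rw [h X i.1 g hg, zero_comp]

lemma hasIndex_iff {N : ℕ} : HasIndex H P N ↔ Nilp C (homF H (vo P)) N :=
  ⟨nilp_of_hasIndex, hasIndex_of_nilp⟩

/-- The index is inherited by dominated varieties. -/
theorem HasIndex.dominated {N : ℕ} (h : HasIndex H P N) : HasIndex H (Dominated C P) N := by
  rw [hasIndex_iff] at *
  refine Nilp.dominated (o := vo P) (o' := vo (Dominated C P)) ?_ h
  rintro ⟨X, m, W, a, b, hW, hd⟩
  exact ⟨m, fun s => ⟨W s, hW s⟩, a, b, hd⟩

lemma IsComposite.mono (hQ : ∀ X, Q X → P X) {n : ℕ} {g : C.A (X.prod Y)}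
    (hg : IsComposite H Q n g) : IsComposite H P n g := by
  induction hg with
  | nil X hX => exact IsComposite.nil X (hQ X hX)
  | cons X Y Z f g hX hf hg ih => exact IsComposite.cons X Y Z f g (hQ X hX) hf ih

lemma HasIndex.mono {N : ℕ} (h : HasIndex H P N) (hQ : ∀ X, Q X → P X) : HasIndex H Q N :=
  fun X Y g hg => h X Y g (hg.mono hQ)

lemma cm_setup {E : 𝒱.Obj} [GroupLaw E] {u : E ⟶ E} {d : ℕ} (h : IsCMCurve C E u d) :
    ∃ θ : C.A E, Setup θ u d := by
  obtain ⟨θ, hθ, hp, hc, hu⟩ := h.origin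
  exact ⟨θ, h.dim_eq, h.pos, h.hom, h.sq, hθ, hp, hc, hu⟩

/-- Products with powers of an elliptic curve with complex multiplication. -/
theorem HasIndex.step {N : ℕ} (h : HasIndex H P N) {E : 𝒱.Obj} [GroupLaw E] {u : E ⟶ E} {d : ℕ}
    (hE : IsCMCurve C E u d) (n : ℕ) :
    HasIndex H (fun W => ∃ Y, P Y ∧ W = (pw E n).prod Y) ((2 * (n + 1) + 1) * N) := by
  obtain ⟨θ, hS⟩ := cm_setup hE
  rw [hasIndex_iff] at *
  have h1 : Nilp C (homF H fun i : {X : 𝒱.Obj // P X} => (pw E n).prod (vo P i))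
      ((2 * (n + 1) + 1) * N) := by
    rcases N with _ | N
    · intro i
      rw [mul_zero]
      have h0 : dg C (vo P i) = 0 := h i
      change dg C ((pw E n).prod (vo P i)) = 0
      rw [← tens_dg C, h0, tens_zero_right]
    · exact BB.step hS n h
  refine Nilp.dominated (o := fun i : {X : 𝒱.Obj // P X} => (pw E n).prod (vo P i))
    (o' := vo fun W => ∃ Y, P Y ∧ W = (pw E n).prod Y) ?_ h1
  rintro ⟨W, Y, hY, rfl⟩
  refine ⟨1, fun _ => ⟨Y, hY⟩, fun _ => dg C _, fun _ => dg C _, ?_⟩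
  rw [Finset.sum_const, Finset.card_univ, Fintype.card_fin, one_smul]
  exact (dg_comp C _).symm

/-- Points. -/
theorem hasIndex_points : HasIndex H (fun X : 𝒱.Obj => X.dim = 0) 1 :=
  hasIndex_of_nilp (nilp_points H fun i => i.2)

/-- Curves. -/
theorem hasIndex_curves (hpic : PicardOfProducts H) :
    HasIndex H (fun X : 𝒱.Obj => X.dim = 1) 3 :=
  hasIndex_of_nilp (nilp_curves hpic fun i => i.2)

end Pool.Agent.K1H14.BB
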