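import Pool.Agent.K1H14.BB.Kill

/-!
# Integration along a factor, classes on products with an elliptic curve
-/

open CategoryTheory AlgebraicGeometry

universe u v w x

namespace Pool.Agent.K1H14.BB

open Pool.Agent.H914 Pool.Agent.H914.VarClass Pool.Agent.H914.VarClass.Obj Pool.Agent.W492.BB
  Pool.Agent.W550.Corr Pool.Agent.TH133 Pool.Agent.Y152.AS Pool.Agent.R904.CM
open Pool.Agent.TH829.Kim (base_pull)
open Pool.Agent.R904.Voi (vl pull_vl vl_univ vl_mem vl_add vl_sub vl_smul vl_pull vl_fst vl_snd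
  vl_tp vl_comp vl_sum)

set_option linter.unusedSectionVars false

variable {k : Type u} [Field k] {𝒱 : VarClass k} {C : TheoryData.{u, v, 0} 𝒱 ℚ}
  [hC : IsChowProj C] {W V X Y Z T : 𝒱.Obj}

/-- Fubini. -/
lemma fubini (κ : C.A (W.prod (X.prod Y))) :
    C.push (fst W (X.prod Y)) κ =
      C.push (fst W X) (C.push (fst (W.prod X) Y) (C.pull (aI W X Y) κ)) := by
  rw [push_model C (aI W X Y) (aJ W X Y) aI_aJ aJ_aI, ← C.push_comp]
  congr 2
  simp [aI]

/-- Integration against the diagonal. -/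
lemma int_dg (y : W ⟶ Y) (κ : C.A (W.prod Y)) :
    C.push (fst W Y) (vl C (dg C Y) (fst W Y ≫ y) (snd W Y) * κ) =
      C.pull (Obj.lift (𝟙 W) y) κ := by
  have h1 := vl_comp (dg C Y) (tp C κ) y (𝟙 W)
  rw [dg_comp, vl_tp, Category.comp_id, vl_tp, vl_univ] at h1
  exact h1.symm

/-- The projection formula for `fst`. -/
lemma int_pull (a : C.A W) (κ : C.A (W.prod Y)) :
    C.push (fst W Y) (C.pull (fst W Y) a * κ) = a * C.push (fst W Y) κ := C.proj_left _ _ _

/-- The exchange of two integrations. -/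
lemma int_swap (κ : C.A ((W.prod X).prod Y)) :
    C.push (fst W X) (C.push (fst (W.prod X) Y) κ) = C.push (fst W Y) (C.push (fst (W.prod Y) X)
      (C.pull (Obj.lift (Obj.lift (fst (W.prod Y) X ≫ fst W Y) (snd (W.prod Y) X))
        (fst (W.prod Y) X ≫ snd W Y)) κ)) := by
  have h1 : Obj.lift (Obj.lift (fst (W.prod Y) X ≫ fst W Y) (snd (W.prod Y) X))
      (fst (W.prod Y) X ≫ snd W Y) ≫
      Obj.lift (Obj.lift (fst (W.prod X) Y ≫ fst W X) (snd (W.prod X) Y))
      (fst (W.prod X) Y ≫ snd W X) = 𝟙 _ := by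
    apply prod_ext
    · apply prod_ext <;> simp [comp_lift]
    · simp [comp_lift]
  have h2 : Obj.lift (Obj.lift (fst (W.prod X) Y ≫ fst W X) (snd (W.prod X) Y))
      (fst (W.prod X) Y ≫ snd W X) ≫
      Obj.lift (Obj.lift (fst (W.prod Y) X ≫ fst W Y) (snd (W.prod Y) X))
      (fst (W.prod Y) X ≫ snd W Y) = 𝟙 _ := by
    apply prod_ext
    · apply prod_ext <;> simp [comp_lift]
    · simp [comp_lift]
  rw [← C.push_comp, push_model C _ _ h1 h2, ← C.push_comp]
  congr 2
  simp

section curve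

variable {E : 𝒱.Obj} [GroupLaw E] {θ : C.A E}

/-- The diagonal of the elliptic curve. -/
lemma dg_eq (hp : Point1 θ) : dg C E = eC θ (fst E E - snd E E) := by
  have := graph1 hp (𝟙 E)
  rw [Category.comp_id] at this
  exact this

lemma vl_dg (hp : Point1 θ) (x y : W ⟶ E) : vl C (dg C E) x y = eC θ (x - y) := by
  rw [dg_eq hp, vl, pull_eC, comp_sub', lift_fst, lift_snd]

/-- The three parts of the value of a class on `W × E` at the point `G`. -/
lemma three (hp : Point1 θ) (hc : Cube θ) (κ : C.A (W.prod E)) (G : W ⟶ E) :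
    C.pull (Obj.lift (𝟙 W) G) κ = C.push (fst W E) (eC θ (snd W E) * κ) +
      eC θ G * C.push (fst W E) κ -
        C.push (fst W E) (bC θ (fst W E ≫ G) (snd W E) * κ) := by
  rw [← int_dg, vl_dg hp, eC_sub hc, sub_mul, add_mul, map_sub, map_add, ← pull_eC, int_pull]
  abel

/-- The value at the origin. -/
lemma three_zero (hp : Point1 θ) (hc : Cube θ) (κ : C.A (W.prod E)) :
    C.push (fst W E) (eC θ (snd W E) * κ) = C.pull (Obj.lift (𝟙 W) (0 : W ⟶ E)) κ := by
  rw [three hp hc, eC_zero hc, zero_mul, comp_zero', bC_zero_left hc, zero_mul, map_zero]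
  abel

/-- The integral of `bC` vanishes. -/
lemma int_one (hd : 0 < X.dim) : C.push (fst W X) (1 : C.A (W.prod X)) = 0 := by
  have h := C.push_mem (fst W X) (C.one_mem (W.prod X))
  rw [C.gr_neg] at h
  · exact (Submodule.mem_bot _).1 h
  · rw [dim_prod]
    push_cast
    have : (0 : ℤ) < X.dim := by exact_mod_cast hd
    linarith

lemma int_bC (hp : Point1 θ) (hc : Cube θ) (hd : 0 < E.dim) (G : W ⟶ E) :
    C.push (fst W E) (bC θ (fst W E ≫ G) (snd W E)) = 0 := by
  have h1 := three hp hc (1 : C.A (W.prod E)) G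
  have h2 := three_zero hp hc (1 : C.A (W.prod E))
  rw [map_one, mul_one] at h1 h2
  rw [h2, int_one hd, mul_zero, add_zero, mul_one] at h1
  have h3 := sub_eq_self.1 h1.symm
  exact h3

end curve

end Pool.Agent.K1H14.BB
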