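import Pool.Agent.K1H14.BB.NF2

/-!
# Classes annihilated by the sum of the complex multiplications
-/

open CategoryTheory AlgebraicGeometry

universe u v w x

namespace Pool.Agent.K1H14.BB

open Pool.Agent.H914 Pool.Agent.H914.VarClass Pool.Agent.H914.VarClass.Obj Pool.Agent.W492.BB
  Pool.Agent.W550.Corr Pool.Agent.TH133 Pool.Agent.Y152.AS Pool.Agent.R904.CM
open Pool.Agent.TH829.Kim (base_pull)
open Pool.Agent.R904.Voi (vl pull_vl vl_univ vl_mem vl_add vl_sub vl_smul vl_pull vl_fst vl_snd
  vl_tp vl_comp vl_sum)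
open Function (update update_self update_of_ne)

set_option linter.unusedSectionVars false

variable {k : Type u} [Field k] {𝒱 : VarClass k} {ι : Type} [DecidableEq ι]
  {C : TheoryData.{u, v, 0} 𝒱 ℚ} [hC : IsChowProj C] {K : Type w} [Field K]
  {H : WeilTheoryData.{u, v, w} C K} [hH : IsWeilProj H] {E R W V : 𝒱.Obj}

/-- The values of the family are homologically trivial. -/
def IsHT (H : WeilTheoryData.{u, v, w} C K) (φ : FamT C ι E R) : Prop :=
  ∀ (W : 𝒱.Obj) (t : ι → (W ⟶ E)) (r : W ⟶ R), H.cl (φ W t r) = 0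

/-- The span of the families `a(t) η(r)` with `η` homologically trivial. -/
inductive Sp (H : WeilTheoryData.{u, v, w} C K) : FamT C ι E R → Prop
  | zero : Sp H (fun _ _ _ => 0)
  | add {φ ψ : FamT C ι E R} (h1 : Sp H φ) (h2 : Sp H ψ) :
      Sp H (fun W t r => φ W t r + ψ W t r)
  | mk (a : ∀ W : 𝒱.Obj, (ι → (W ⟶ E)) → C.A W) (ha : ∀ (V W : 𝒱.Obj) (f : V ⟶ W)
      (t : ι → (W ⟶ E)), C.pull f (a W t) = a V (fun i => f ≫ t i)) (η : C.A R)
      (hη : H.cl η = 0) : Sp H (fun W t r => a W t * C.pull r η)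

lemma Sp.mul {φ : FamT C ι E R} (h : Sp H φ) (b : ∀ W : 𝒱.Obj, (ι → (W ⟶ E)) → C.A W)
    (hb : ∀ (V W : 𝒱.Obj) (f : V ⟶ W) (t : ι → (W ⟶ E)), C.pull f (b W t) =
      b V (fun i => f ≫ t i)) : Sp H (fun W t r => b W t * φ W t r) := by
  induction h with
  | zero =>
    simp only [mul_zero]
    exact Sp.zero
  | add h1 h2 ih1 ih2 =>
    simp only [mul_add]
    exact Sp.add ih1 ih2
  | mk a ha η hη =>
    simp only [← mul_assoc]
    refine Sp.mk (fun W t => b W t * a W t) (fun V W f t => ?_) η hη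
    rw [map_mul, ha, hb]

lemma Sp.smul {φ : FamT C ι E R} (h : Sp H φ) (q : ℚ) : Sp H (fun W t r => q • φ W t r) := by
  have := h.mul (fun W _ => algebraMap ℚ (C.A W) q) (fun V W f _ => AlgHom.commutes _ _)
  simp only [← Algebra.smul_def] at this
  exact this

lemma Sp.sum {κ : Type*} (s : Finset κ) {φ : κ → FamT C ι E R} (h : ∀ l ∈ s, Sp H (φ l)) :
    Sp H (fun W t r => ∑ l ∈ s, φ l W t r) := by
  classical
  induction s using Finset.induction_on with
  | empty =>
    simp only [Finset.sum_empty]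
    exact Sp.zero
  | insert l s hl ih =>
    simp only [Finset.sum_insert hl]
    exact Sp.add (h l (Finset.mem_insert_self _ _))
      (ih fun j hj => h j (Finset.mem_insert_of_mem hj))

lemma cl_smul' {X : 𝒱.Obj} (c : ℚ) {a : C.A X} (h : H.cl a = 0) : H.cl (c • a) = 0 := by
  rw [Algebra.smul_def, map_mul, h, mul_zero]

lemma IsHT.iI {φ : FamT C ι E R} (h : IsHT H φ) (i : ι) : IsHT H (II φ i) := by
  intro W t r
  rw [II, H.cl_push, h, map_zero]

variable [GroupLaw E] {θ : C.A E} {u : E ⟶ E}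

lemma IsHT.zZ {φ : FamT C ι E R} (h : IsHT H φ) (i : ι) : IsHT H (ZZ φ i) := fun W _ r => h W _ r

lemma IsHT.aP {φ : FamT C ι E R} (h : IsHT H φ) (i : ι) : IsHT H (AP θ φ i) := by
  intro W t r
  rw [AP, map_neg, H.cl_push, map_mul, h, mul_zero, map_zero, neg_zero]

/-! ### Contraction of two variables -/

/-- The contraction of the variables `i` and `l`, the latter twisted by `g`. -/
noncomputable def EG (φ : FamT C ι E R) (i l : ι) (g : E ⟶ E) : FamT C ι E R := fun W t r =>
  C.push (fst W E) (φ (W.prod E) (update (nv t i) l (snd W E ≫ g)) (fst W E ≫ r))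

/-- The restriction to the diagonal `t_l = t_i ≫ g`. -/
def RD (φ : FamT C ι E R) (i l : ι) (g : E ⟶ E) : FamT C ι E R := fun W t r =>
  φ W (update t l (t i ≫ g)) r

lemma IsNat.rD {φ : FamT C ι E R} (hφ : IsNat φ) (i l : ι) (g : E ⟶ E) : IsNat (RD φ i l g) := by
  intro V W f t r
  rw [RD, hφ, comp_update]
  simp only [RD, Category.assoc]

lemma II_RD (φ : FamT C ι E R) (i l : ι) (g : E ⟶ E) : II (RD φ i l g) i = EG φ i l g := by
  funext W t r
  rw [II, RD, EG, nv_self]

lemma IsNat.eG {φ : FamT C ι E R} (hφ : IsNat φ) (i l : ι) (g : E ⟶ E) : IsNat (EG φ i l g) := by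
  rw [← II_RD]
  exact (hφ.rD i l g).iI i

lemma IsHT.eG {φ : FamT C ι E R} (hφ : IsHT H φ) (i l : ι) (g : E ⟶ E) :
    IsHT H (EG φ i l g) := by
  intro W t r
  rw [EG, H.cl_push, hφ, map_zero]

lemma Supp.eG {φ : FamT C ι E R} {S : Finset ι} (h : Supp φ S) (i l : ι) (g : E ⟶ E) :
    Supp (EG φ i l g) ((S.erase l).erase i) := by
  intro W t t' r ht
  rw [EG, EG]
  congr 1
  refine h _ _ _ _ fun j hj => ?_
  by_cases hjl : j = l
  · subst hjl
    rw [update_self, update_self]
  · rw [update_of_ne hjl, update_of_ne hjl]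
    by_cases hji : j = i
    · subst hji
      rw [nv_self, nv_self]
    · rw [nv_ne _ hji, nv_ne _ hji, ht j (Finset.mem_erase.2 ⟨hji, Finset.mem_erase.2 ⟨hjl, hj⟩⟩)]

lemma IsAdd.eG {φ : FamT C ι E R} {i l j : ι} (h : IsAdd φ j) (hji : j ≠ i) (hjl : j ≠ l)
    (g : E ⟶ E) : IsAdd (EG φ i l g) j := by
  intro W t r x y
  simp only [EG]
  rw [nv_update_ne _ hji, nv_update_ne _ hji, nv_update_ne _ hji, Function.update_comm hjl,
    Function.update_comm hjl, Function.update_comm hjl, comp_add', h, map_add]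

/-- Families of weight two in the variable `i`. -/
lemma quadfam (hp : Point1 θ) (hc : Cube θ) {φ : FamT C ι E R} (hφ : IsNat φ) {i : ι}
    (t : ι → (W ⟶ E)) (r : W ⟶ R)
    (h : ∀ x, φ W (update t i ((2 : ℤ) • x)) r = (4 : ℚ) • φ W (update t i x) r) (x : W ⟶ E) :
    φ W (update t i x) r = eC θ x * II φ i W t r := by
  have e1 : ∀ x : W ⟶ E, φ W (update t i x) r = φ W (update t i 0) r + eC θ x * II φ i W t r +
      AP θ φ i W (update t i x) r := by
    intro x
    have := three_fam hp hc hφ i (update t i x) r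
    rw [ZZ, Function.update_idem, update_self] at this
    rw [this]
    congr 3
    rw [II, II, nv_update_self]
  have e0 : φ W (update t i 0) r = 0 := by
    have := h 0
    rw [smul_zero] at this
    have h3 : (3 : ℚ) • φ W (update t i 0) r = 0 := by
      have h4 : (3 : ℚ) • φ W (update t i 0) r = (4 : ℚ) • φ W (update t i 0) r -
          φ W (update t i 0) r := by module
      rw [h4, ← this, sub_self]
    exact (smul_eq_zero.1 h3).resolve_left (by norm_num)
  have e2 := e1 ((2 : ℤ) • x)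
  rw [h, e1 x, e0, zero_add, zero_add, (isAdd_AP hc φ i).zsmul, eC_zsmul hc, smul_mul_assoc] at e2
  have e3 : (2 : ℚ) • AP θ φ i W (update t i x) r = 0 := by
    rw [← Int.cast_smul_eq_zsmul ℚ, ← Int.cast_smul_eq_zsmul ℚ] at e2
    push_cast at e2
    linear_combination (norm := module) e2
  have e4 := (smul_eq_zero.1 e3).resolve_left (by norm_num)
  rw [e1, e0, e4, zero_add, add_zero]

section pair

variable {φ : FamT C ι E R} (hφ : IsNat φ) {i l : ι} (hil : i ≠ l) (hi : IsAdd φ i)
  (hl : IsAdd φ l)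

include hφ hil hi hl in
/-- The symmetric part of a family which is additive in two variables. -/
lemma pair_sym (hp : Point1 θ) (hc : Cube θ) {g : E ⟶ E}
    (hg : ∀ {X : 𝒱.Obj} (x y : X ⟶ E), (x + y) ≫ g = x ≫ g + y ≫ g) (t : ι → (W ⟶ E))
    (r : W ⟶ R) (x y : W ⟶ E) :
    φ W (update (update t i x) l (y ≫ g)) r + φ W (update (update t i y) l (x ≫ g)) r =
      bC θ x y * EG φ i l g W t r := by
  have hq : ∀ x : W ⟶ E, φ W (update (update t i x) l (x ≫ g)) r =
      eC θ x * EG φ i l g W t r := by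
    intro x
    have h1 := quadfam hp hc (hφ.rD i l g) (i := i) t r (fun x => ?_) x
    · rw [II_RD] at h1
      rw [← h1, RD, update_self]
    · rw [RD, RD, update_self, update_self]
      have hx : ((2 : ℤ) • x) ≫ g = (2 : ℤ) • (x ≫ g) := by
        rw [two_zsmul, two_zsmul, hg]
      rw [hx, hl.zsmul, Function.update_comm hil, hi.zsmul, Function.update_comm hil.symm,
        smul_smul, ← Int.cast_smul_eq_zsmul ℚ]
      norm_num
  have h3 := hq (x + y)
  have h5 : ∀ z, φ W (update (update t i (x + y)) l z) r =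
      φ W (update (update t i x) l z) r + φ W (update (update t i y) l z) r := by
    intro z
    rw [Function.update_comm hil, Function.update_comm hil, Function.update_comm hil, hi]
  rw [hg, hl, h5, h5, hq x, hq y, eC_add, add_mul, add_mul] at h3
  have h4 : φ W (update (update t i x) l (y ≫ g)) r + φ W (update (update t i y) l (x ≫ g)) r =
      (eC θ x * EG φ i l g W t r + φ W (update (update t i y) l (x ≫ g)) r +
        (φ W (update (update t i x) l (y ≫ g)) r + eC θ y * EG φ i l g W t r)) -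
      eC θ x * EG φ i l g W t r - eC θ y * EG φ i l g W t r := by abel
  rw [h4, h3]
  abel

include hφ hil hi hl in
/-- A family with `U_i U_l = d`. -/
lemma pair_eq {d : ℕ} (h : Setup θ u d)
    (hR : ∀ (W : 𝒱.Obj) (t : ι → (W ⟶ E)) (r : W ⟶ R),
      φ W (update (update t i (t i ≫ u)) l (t l ≫ u)) r = (d : ℚ) • φ W t r)
    (t : ι → (W ⟶ E)) (r : W ⟶ R) : (2 * d : ℚ) • φ W t r =
      (d : ℚ) • (bC θ (t i) (t l) * EG φ i l (𝟙 E) W t r) +
        bC θ (t i ≫ u) (t l) * EG φ i l u W t r := by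
  have h1 := pair_sym hφ hil hi hl h.point h.cube (g := 𝟙 E)
    (fun x y => by rw [Category.comp_id, Category.comp_id, Category.comp_id]) t r (t i) (t l)
  have h2 := pair_sym hφ hil hi hl h.point h.cube (g := u) h.hom t r (t i ≫ u) (t l)
  rw [Category.comp_id, Category.comp_id] at h1
  have e1 : update (update t i (t i)) l (t l) = t := by
    rw [Function.update_eq_self, Function.update_eq_self]
  rw [e1] at h1
  rw [hR, h.comp_uu, hl.neg, hl.zsmul, ← Int.cast_smul_eq_zsmul ℚ, Int.cast_natCast] at h2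
  linear_combination (norm := module) (d : ℚ) • h1 + h2

end pair

/-! ### Additive families -/

/-- Substitution of `t_j ≫ u` for `t_j`. -/
def sg (u : E ⟶ E) (j : ι) (t : ι → (W ⟶ E)) : ι → (W ⟶ E) := update t j (t j ≫ u)

lemma sg_self (j : ι) (t : ι → (W ⟶ E)) : sg u j t j = t j ≫ u := update_self _ _ _

lemma sg_ne {i j : ι} (h : i ≠ j) (t : ι → (W ⟶ E)) : sg u j t i = t i := update_of_ne h _ _

lemma sg_comm (i j : ι) (t : ι → (W ⟶ E)) : sg u i (sg u j t) = sg u j (sg u i t) := by
  by_cases hij : i = j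
  · subst hij
    rfl
  · simp only [sg]
    rw [update_of_ne hij, update_of_ne (Ne.symm hij), Function.update_comm hij]

lemma sg_sg {d : ℕ} (h : Setup θ u d) {φ : FamT C ι E R} {i : ι} (hi : IsAdd φ i)
    (t : ι → (W ⟶ E)) (r : W ⟶ R) : φ W (sg u i (sg u i t)) r = -((d : ℚ) • φ W t r) := by
  simp only [sg]
  rw [update_self, Function.update_idem, h.comp_uu, hi.neg, hi.zsmul, Function.update_eq_self,
    ← Int.cast_smul_eq_zsmul ℚ, Int.cast_natCast]

lemma comp_sg (f : V ⟶ W) (j : ι) (t : ι → (W ⟶ E)) :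
    (fun l => f ≫ sg u j t l) = sg u j (fun l => f ≫ t l) := by
  rw [sg, comp_update, sg, Category.assoc]

/-- The family `d φ + U_i U_l φ`. -/
noncomputable def wk (u : E ⟶ E) (d : ℕ) (φ : FamT C ι E R) (i l : ι) : FamT C ι E R := fun W t r =>
  (d : ℚ) • φ W t r + φ W (sg u i (sg u l t)) r

section wk

variable {d : ℕ} (h : Setup θ u d) {φ : FamT C ι E R} (hφ : IsNat φ) {S : Finset ι}
  (hS : Supp φ S) (hA : ∀ i ∈ S, IsAdd φ i) {i l : ι} (hi : i ∈ S) (hl : l ∈ S) (hil : i ≠ l)
  (hR : ∀ (W : 𝒱.Obj) (t : ι → (W ⟶ E)) (r : W ⟶ R), ∑ j ∈ S, φ W (sg u j t) r = 0)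

include hφ in
lemma wk_nat : IsNat (wk u d φ i l) := by
  intro V W f t r
  rw [wk, map_add, map_smul, hφ, hφ, comp_sg, comp_sg]
  rfl

lemma wk_ht (hH' : IsHT H φ) : IsHT H (wk u d φ i l) := by
  intro W t r
  rw [wk, map_add, cl_smul' _ (hH' _ _ _), hH', add_zero]

include hS hi hl in
lemma wk_supp : Supp (wk u d φ i l) S := by
  intro W t t' r ht
  rw [wk, wk, hS W t t' r ht]
  congr 1
  refine hS W _ _ r fun j hj => ?_
  have e : ∀ j ∈ S, ∀ l ∈ S, sg u l t j = sg u l t' j := by
    intro j hj l hl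
    simp only [sg]
    by_cases hjl : j = l
    · subst hjl
      rw [update_self, update_self, ht j hj]
    · rw [update_of_ne hjl, update_of_ne hjl, ht j hj]
  by_cases hji : j = i
  · subst hji
    rw [sg_self, sg_self, e j hj l hl]
  · rw [sg_ne hji, sg_ne hji, e j hj l hl]

lemma IsAdd.sg (hu : ∀ {X : 𝒱.Obj} (x y : X ⟶ E), (x + y) ≫ u = x ≫ u + y ≫ u) {j : ι}
    (hj : IsAdd φ j) (i : ι) : IsAdd (fun W t r => φ W (BB.sg u i t) r) j := by
  intro W t r x y
  simp only [BB.sg]
  by_cases hij : i = j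
  · subst hij
    rw [update_self, update_self, update_self, Function.update_idem, Function.update_idem,
      Function.update_idem, hu, hj]
  · rw [update_of_ne hij, update_of_ne hij, update_of_ne hij, Function.update_comm (Ne.symm hij),
      Function.update_comm (Ne.symm hij), Function.update_comm (Ne.symm hij), hj]

include h hA in
lemma wk_add : ∀ j ∈ S, IsAdd (wk u d φ i l) j := by
  intro j hj W t r x y
  have h1 := ((hA j hj).sg h.hom i).sg h.hom l
  have h2 := h1 W t r x y
  simp only [wk]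
  simp only at h2
  rw [hA j hj, h2, smul_add]
  abel

include h hA hi hl in
lemma wk_rel (W : 𝒱.Obj) (t : ι → (W ⟶ E)) (r : W ⟶ R) :
    wk u d φ i l W (sg u i (sg u l t)) r = (d : ℚ) • wk u d φ i l W t r := by
  simp only [wk]
  have e1 : sg u i (sg u l (sg u i (sg u l t))) = sg u i (sg u i (sg u l (sg u l t))) := by
    rw [sg_comm l i]
  rw [e1, sg_sg h (hA i hi), sg_sg h (hA l hl)]
  module

include h hA hi hl in
lemma wk_pair (W : 𝒱.Obj) (t : ι → (W ⟶ E)) (r : W ⟶ R) :
    wk u d φ i l W (sg u i t) r + wk u d φ i l W (sg u l t) r = 0 := by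
  simp only [wk]
  have e1 : sg u i (sg u l (sg u i t)) = sg u i (sg u i (sg u l t)) := by
    rw [sg_comm l i]
  have e2 : φ W (sg u i (sg u l (sg u l t))) r = -((d : ℚ) • φ W (sg u i t) r) := by
    rw [sg_comm i l, sg_comm i l, sg_sg h (hA l hl)]
  rw [e1, sg_sg h (hA i hi), e2]
  module

include h hA hi hl hil hR in
lemma wk_DA (W : 𝒱.Obj) (t : ι → (W ⟶ E)) (r : W ⟶ R) :
    ∑ j ∈ (S.erase l).erase i, wk u d φ i l W (sg u j t) r = 0 := by
  have h1 : ∑ j ∈ S, wk u d φ i l W (sg u j t) r = 0 := by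
    simp only [wk]
    rw [Finset.sum_add_distrib, ← Finset.smul_sum, hR, smul_zero, zero_add]
    rw [← hR W (sg u i (sg u l t)) r]
    refine Finset.sum_congr rfl fun j _ => ?_
    rw [sg_comm l j, sg_comm i j]
  have h2 := Finset.add_sum_erase S (fun j => wk u d φ i l W (sg u j t) r) hl
  have h3 := Finset.add_sum_erase (S.erase l) (fun j => wk u d φ i l W (sg u j t) r)
    (Finset.mem_erase.2 ⟨hil, hi⟩)
  have h4 := wk_pair h hA hi hl W t r
  rw [h1, ← h3] at h2
  rw [← h2, ← add_assoc, add_comm (wk u d φ i l W (sg u l t) r), h4, zero_add]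

include h hA hi hR in
lemma wk_sum (W : 𝒱.Obj) (t : ι → (W ⟶ E)) (r : W ⟶ R) :
    ∑ l ∈ S.erase i, wk u d φ i l W t r = ((d : ℚ) * S.card) • φ W t r := by
  simp only [wk]
  rw [Finset.sum_add_distrib, Finset.sum_const, Finset.card_erase_of_mem hi]
  have h1 := Finset.add_sum_erase S (fun l => φ W (sg u i (sg u l t)) r) hi
  have h2 : ∑ l ∈ S, φ W (sg u i (sg u l t)) r = 0 := by
    rw [← hR W (sg u i t) r]
    refine Finset.sum_congr rfl fun j _ => ?_
    rw [sg_comm]
  rw [h2, sg_sg h (hA i hi)] at h1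
  have h3 : ∑ l ∈ S.erase i, φ W (sg u i (sg u l t)) r = (d : ℚ) • φ W t r := by
    rw [← sub_eq_zero, ← h1]
    abel
  have hpos : 1 ≤ S.card := Finset.card_pos.2 ⟨i, hi⟩
  rw [h3, ← Nat.cast_smul_eq_nsmul ℚ, Nat.cast_sub hpos]
  push_cast
  module

end wk

lemma eG_DA {φ : FamT C ι E R} {S : Finset ι} {i l : ι}
    (h : ∀ (W : 𝒱.Obj) (t : ι → (W ⟶ E)) (r : W ⟶ R),
      ∑ j ∈ (S.erase l).erase i, φ W (sg u j t) r = 0) (g : E ⟶ E) (W : 𝒱.Obj)
    (t : ι → (W ⟶ E)) (r : W ⟶ R) :
    ∑ j ∈ (S.erase l).erase i, EG φ i l g W (sg u j t) r = 0 := by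
  simp only [EG]
  rw [← map_sum]
  have h1 : ∑ j ∈ (S.erase l).erase i, φ (W.prod E) (update (nv (sg u j t) i) l (snd W E ≫ g))
      (fst W E ≫ r) = 0 := by
    rw [← h (W.prod E) (update (nv t i) l (snd W E ≫ g)) (fst W E ≫ r)]
    refine Finset.sum_congr rfl fun j hj => ?_
    have hji : j ≠ i := Finset.ne_of_mem_erase hj
    have hjl : j ≠ l := Finset.ne_of_mem_erase (Finset.mem_of_mem_erase hj)
    rw [sg, nv_update_ne _ hji, sg, Function.update_comm hjl, update_of_ne hjl, nv_ne _ hji,
      Category.assoc]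
  rw [h1, map_zero]

/-- Additive families annihilated by the sum of the complex multiplications. -/
theorem keyA {d : ℕ} (h : Setup θ u d) (n : ℕ) (S : Finset ι) (hn : S.card = n)
    {φ : FamT C ι E R} (hφ : IsNat φ) (hS : Supp φ S) (hA : ∀ i ∈ S, IsAdd φ i)
    (hT : IsHT H φ)
    (hR : ∀ (W : 𝒱.Obj) (t : ι → (W ⟶ E)) (r : W ⟶ R), ∑ j ∈ S, φ W (sg u j t) r = 0) :
    Sp H φ := by
  induction n using Nat.strong_induction_on generalizing S φ with
  | _ n ih =>
    rcases S.eq_empty_or_nonempty with hS0 | ⟨i, hi⟩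
    · subst hS0
      have e1 : φ = fun W t r => (fun W _ => (1 : C.A W)) W t *
          C.pull r (φ R (fun _ => 0) (𝟙 R)) := by
        funext W t r
        simp only [one_mul]
        rw [hφ, Category.comp_id]
        exact hS W _ _ r fun i hi => absurd hi (Finset.notMem_empty i)
      rw [e1]
      exact Sp.mk (fun W _ => (1 : C.A W)) (fun V W f t => map_one _) _ (hT _ _ _)
    · have hk : ∀ l ∈ S.erase i, Sp H (wk u d φ i l) := by
        intro l hl'
        have hl : l ∈ S := Finset.mem_of_mem_erase hl'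
        have hil : i ≠ l := (Finset.ne_of_mem_erase hl').symm
        have hcard : ((S.erase l).erase i).card < n := by
          rw [← hn]
          exact Finset.card_lt_card (Finset.ssubset_of_subset_of_ssubset
            (Finset.erase_subset _ _) (Finset.erase_ssubset hl))
        have hE : ∀ g : E ⟶ E, Sp H (EG (wk u d φ i l) i l g) := by
          intro g
          refine ih _ hcard _ rfl ((wk_nat hφ).eG i l g) ((wk_supp hS hi hl).eG i l g) ?_
            ((wk_ht hT).eG i l g) (eG_DA (wk_DA h hA hi hl hil hR) g)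
          intro j hj
          have hji : j ≠ i := Finset.ne_of_mem_erase hj
          have hjl : j ≠ l := Finset.ne_of_mem_erase (Finset.mem_of_mem_erase hj)
          exact (wk_add h hA j (Finset.mem_of_mem_erase (Finset.mem_of_mem_erase hj))).eG hji hjl g
        have hrel : ∀ (W : 𝒱.Obj) (t : ι → (W ⟶ E)) (r : W ⟶ R),
            wk u d φ i l W (update (update t i (t i ≫ u)) l (t l ≫ u)) r =
              (d : ℚ) • wk u d φ i l W t r := by
          intro W t r
          rw [← wk_rel h hA hi hl, sg, sg, update_of_ne hil, Function.update_comm hil]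
        have e1 : wk u d φ i l = fun W t r => (2 * d : ℚ)⁻¹ •
            ((d : ℚ) • (bC θ (t i) (t l) * EG (wk u d φ i l) i l (𝟙 E) W t r) +
              bC θ (t i ≫ u) (t l) * EG (wk u d φ i l) i l u W t r) := by
          funext W t r
          rw [← pair_eq (wk_nat hφ) hil (wk_add h hA i hi) (wk_add h hA l hl) h hrel, smul_smul,
            inv_mul_cancel₀ (mul_ne_zero two_ne_zero h.ne), one_smul]
        rw [e1]
        refine Sp.smul (Sp.add (Sp.smul ((hE (𝟙 E)).mul (fun W t => bC θ (t i) (t l))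
          (fun V W f t => pull_bC _ _ _)) _) ((hE u).mul (fun W t => bC θ (t i ≫ u) (t l))
          (fun V W f t => ?_))) _
        rw [pull_bC, Category.assoc]
      have hpos : (S.card : ℚ) ≠ 0 := by
        rw [Nat.cast_ne_zero]
        exact (Finset.card_pos.2 ⟨i, hi⟩).ne'
      have e2 : φ = fun W t r => ((d : ℚ) * S.card)⁻¹ • ∑ l ∈ S.erase i, wk u d φ i l W t r := by
        funext W t r
        rw [wk_sum h hA hi hR, smul_smul, inv_mul_cancel₀ (mul_ne_zero h.ne hpos), one_smul]
      rw [e2]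
      exact Sp.smul (Sp.sum _ hk) _

/-- Families annihilated by the sum of the complex multiplications. -/
theorem key {d : ℕ} (h : Setup θ u d) (n : ℕ) (S : Finset ι) (hn : S.card = n)
    {φ : FamT C ι E R} (hφ : IsNat φ) (hS : Supp φ S) (hT : IsHT H φ) (hD : DD θ u S φ) :
    Sp H φ := by
  have hd : 0 < E.dim := by rw [h.dim_eq]; norm_num
  induction n using Nat.strong_induction_on generalizing S φ with
  | _ n ih =>
    have claim : ∀ T : Finset ι, T ⊆ S → ∀ φ : FamT C ι E R, IsNat φ → Supp φ S → IsHT H φ →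
        DD θ u S φ → (∀ i ∈ S, i ∉ T → IsAdd φ i) → Sp H φ := by
      intro T
      induction T using Finset.induction_on with
      | empty =>
        intro _ φ hφ hS hT hD hA
        have hA' : ∀ i ∈ S, IsAdd φ i := fun i hi => hA i hi (Finset.notMem_empty i)
        refine keyA h S.card S rfl hφ hS hA' hT fun W t r => ?_
        rw [← hD W t r]
        refine Finset.sum_congr rfl fun j hj => ?_
        rw [(hA' j hj).uU_eq h.point h.cube hd hφ]
        rfl
      | insert i T hiT ihT =>
        intro hsub φ hφ hS hT hD hA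
        have hi : i ∈ S := hsub (Finset.mem_insert_self _ _)
        have hcard : (S.erase i).card < n := by
          rw [← hn]
          exact Finset.card_lt_card (Finset.erase_ssubset hi)
        have h1 : Sp H (ZZ φ i) := ih _ hcard _ rfl (hφ.zZ i) (hS.zZ i) (hT.zZ i)
          (DD.zZ h.point h.cube h.hom hφ hD hi)
        have h2 : Sp H (II φ i) := ih _ hcard _ rfl (hφ.iI i) (hS.iI i) (hT.iI i)
          (DD.iI h.point h.cube h.hom hd hφ hD hi)
        have h3 : Sp H (AP θ φ i) := by
          refine ihT (fun j hj => hsub (Finset.mem_insert_of_mem hj)) _ (hφ.aP i) (hS.aP hi)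
            (hT.aP i) (DD.aP h.point h.cube h.hom hd hφ hD i) fun j hj hjT => ?_
          by_cases hji : j = i
          · subst hji
            exact isAdd_AP h.cube φ j
          · refine (hA j hj ?_).aP hji
            rw [Finset.mem_insert, not_or]
            exact ⟨hji, hjT⟩
        have e1 : φ = fun W t r => (ZZ φ i W t r + eC θ (t i) * II φ i W t r) +
            AP θ φ i W t r := by
          funext W t r
          exact three_fam h.point h.cube hφ i t r
        rw [e1]
        exact Sp.add (Sp.add h1 (h2.mul (fun W t => eC θ (t i)) (fun V W f t => pull_eC _ _))) h3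
    exact claim S (Finset.Subset.refl S) φ hφ hS hT hD fun i hi hi' => absurd hi hi'

end Pool.Agent.K1H14.BB
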