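import Pool.Agent.K1H14.BB.Defs
import Pool.Agent.R904.CM.Main

/-!
# Compositions of correspondences in an ideal
-/

open CategoryTheory AlgebraicGeometry

universe u v w x

namespace Pool.Agent.K1H14.BB

open Pool.Agent.H914 Pool.Agent.H914.VarClass Pool.Agent.H914.VarClass.Obj Pool.Agent.W492.BB
  Pool.Agent.W550.Corr Pool.Agent.TH133

set_option linter.unusedSectionVars false

variable {k : Type u} [Field k] {𝒱 : VarClass k}

/-- A family of sets of correspondences between the varieties `o i`. -/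
abbrev Fam (C : TheoryData.{u, v, 0} 𝒱 ℚ) {I : Type x} (o : I → 𝒱.Obj) : Type _ :=
  ∀ i j : I, Set (C.A ((o i).prod (o j)))

/-- All compositions of correspondences `g_1, …, g_n, h` with `g_i` in the family `J` are zero. -/
def Kill (C : TheoryData.{u, v, 0} 𝒱 ℚ) {I : Type x} {o : I → 𝒱.Obj} (J : Fam C o) :
    ℕ → ∀ {i : I} {Z : 𝒱.Obj}, C.A ((o i).prod Z) → Prop
  | 0, _, _, h => h = 0
  | n + 1, i, _, h => ∀ j : I, ∀ g ∈ J j i, Kill C J n (C.comp g h)

variable {C : TheoryData.{u, v, 0} 𝒱 ℚ} [hC : IsChowProj C] {I : Type x} {o : I → 𝒱.Obj}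
  {J : Fam C o} {i j l : I} {Z W : 𝒱.Obj}

lemma kill_zero {h : C.A ((o i).prod Z)} : Kill C J 0 h ↔ h = 0 := Iff.rfl

lemma Kill.zero (n : ℕ) : Kill C J n (0 : C.A ((o i).prod Z)) := by
  induction n generalizing i with
  | zero => rfl
  | succ n ih =>
    intro j g _
    rw [comp_zero]
    exact ih

lemma Kill.add {n : ℕ} {h h' : C.A ((o i).prod Z)} (a : Kill C J n h) (b : Kill C J n h') :
    Kill C J n (h + h') := by
  induction n generalizing i with
  | zero =>
    change h + h' = 0
    rw [kill_zero] at a b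
    rw [a, b, add_zero]
  | succ n ih =>
    intro j g hg
    rw [comp_add]
    exact ih (a j g hg) (b j g hg)

lemma Kill.sum {ι : Type*} (s : Finset ι) {n : ℕ} {h : ι → C.A ((o i).prod Z)}
    (a : ∀ l ∈ s, Kill C J n (h l)) : Kill C J n (∑ l ∈ s, h l) := by
  classical
  induction s using Finset.induction_on with
  | empty => rw [Finset.sum_empty]; exact Kill.zero n
  | insert l s hi ih =>
    rw [Finset.sum_insert hi]
    exact (a l (Finset.mem_insert_self _ _)).add
      (ih fun j hj => a j (Finset.mem_insert_of_mem hj))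

lemma Kill.right {n : ℕ} {h : C.A ((o i).prod Z)} (a : Kill C J n h) (t : C.A (Z.prod W)) :
    Kill C J n (C.comp h t) := by
  induction n generalizing i with
  | zero =>
    rw [kill_zero] at *
    rw [a, zero_comp]
  | succ n ih =>
    intro j g hg
    rw [← comp_assoc]
    exact ih (a j g hg)

lemma Kill.mono {J' : Fam C o} (hJ : ∀ i j, J' i j ⊆ J i j) {n : ℕ} {h : C.A ((o i).prod Z)}
    (a : Kill C J n h) : Kill C J' n h := by
  induction n generalizing i with
  | zero => exact a
  | succ n ih =>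
    intro j g hg
    exact ih (a j g (hJ _ _ hg))

/-- The family is closed under composition with arbitrary correspondences on the right. -/
def RightIdeal (C : TheoryData.{u, v, 0} 𝒱 ℚ) {I : Type x} {o : I → 𝒱.Obj} (J : Fam C o) : Prop :=
  ∀ (i j l : I) (g : C.A ((o i).prod (o j))) (t : C.A ((o j).prod (o l))), g ∈ J i j →
    C.comp g t ∈ J i l

/-- The family is closed under composition with arbitrary correspondences on the left. -/
def LeftIdeal (C : TheoryData.{u, v, 0} 𝒱 ℚ) {I : Type x} {o : I → 𝒱.Obj} (J : Fam C o) : Prop :=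
  ∀ (i j l : I) (t : C.A ((o i).prod (o j))) (g : C.A ((o j).prod (o l))), g ∈ J j l →
    C.comp t g ∈ J i l

lemma Kill.left {n : ℕ} {h : C.A ((o i).prod Z)} (a : Kill C J (n + 1) h)
    (hJ : RightIdeal C J) (t : C.A ((o j).prod (o i))) : Kill C J (n + 1) (C.comp t h) := by
  intro l g hg
  rw [← comp_assoc]
  exact a l _ (hJ _ _ _ _ _ hg)

/-- Any `n` correspondences in the family `J` compose to zero. -/
def Nilp (C : TheoryData.{u, v, 0} 𝒱 ℚ) {I : Type x} {o : I → 𝒱.Obj} (J : Fam C o) (n : ℕ) :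
    Prop := ∀ i : I, Kill C J n (dg C (o i))

lemma Nilp.kill {n : ℕ} (a : Nilp C J n) (h : C.A ((o i).prod Z)) : Kill C J n h := by
  have := (a i).right h
  rwa [dg_comp] at this

lemma Nilp.kill_mem {n : ℕ} (a : Nilp C J (n + 1)) {h : C.A ((o i).prod (o j))}
    (hh : h ∈ J i j) : Kill C J n h := by
  have := a j i h hh
  rwa [comp_dg] at this

/-! ### States -/

section states

variable {S : Type*} [Fintype S] [DecidableEq S] (ϖ : S → ∀ i : I, C.A ((o i).prod (o i)))

/-- The correspondences `ϖ_s ∘ g` with `g` in the family `J`. -/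
def stF (J : Fam C o) (s : S) : Fam C o := fun i j => {f | ∃ g ∈ J i j, f = C.comp (ϖ s i) g}

lemma states_aux (hsum : ∀ i, ∑ s, ϖ s i = dg C (o i)) (hJ : RightIdeal C J) (n : ℕ)
    (r : S → ℕ) (hr : ∑ s, r s = n) {h : C.A ((o i).prod Z)}
    (hh : ∀ s, Kill C (stF ϖ J s) (r s + 1) h) : Kill C J (n + 1) h := by
  induction n generalizing r i with
  | zero =>
    intro j g hg
    have h0 : ∀ s, r s = 0 := by
      intro s
      exact (Finset.sum_eq_zero_iff.1 hr) s (Finset.mem_univ _)
    rw [kill_zero]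
    have h1 : C.comp g h = C.comp (∑ s, ϖ s j) (C.comp g h) := by
      rw [hsum j, dg_comp]
    rw [h1, sum_comp]
    refine Finset.sum_eq_zero fun s _ => ?_
    have h2 := hh s
    rw [h0 s] at h2
    have h3 := h2 j (C.comp (ϖ s j) g) ⟨g, hg, rfl⟩
    rw [kill_zero, comp_assoc] at h3
    exact h3
  | succ n ih =>
    intro j g hg
    have h1 : C.comp g h = C.comp (∑ s, ϖ s j) (C.comp g h) := by
      rw [hsum j, dg_comp]
    rw [h1, sum_comp]
    refine Kill.sum _ fun s _ => ?_
    have h2 := hh s j (C.comp (ϖ s j) g) ⟨g, hg, rfl⟩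
    rw [comp_assoc] at h2
    rcases hs : r s with _ | m
    · rw [hs, kill_zero] at h2
      rw [h2]
      exact Kill.zero _
    · rw [hs] at h2
      refine ih (Function.update r s m) ?_ fun t => ?_
      · have h3 := Finset.add_sum_erase Finset.univ r (Finset.mem_univ s)
        have h4 := Finset.add_sum_erase Finset.univ (Function.update r s m) (Finset.mem_univ s)
        rw [← h4, Function.update_self]
        have h5 : ∑ x ∈ Finset.univ.erase s, Function.update r s m x =
            ∑ x ∈ Finset.univ.erase s, r x :=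
          Finset.sum_congr rfl fun x hx => Function.update_of_ne (Finset.ne_of_mem_erase hx) _ _
        rw [h5]
        omega
      · by_cases hts : t = s
        · subst hts
          rw [Function.update_self]
          exact h2
        · rw [Function.update_of_ne hts]
          refine Kill.left ?_ ?_ _
          · intro j'' g' hg'
            obtain ⟨g1, hg1, rfl⟩ := hg'
            have h3 := hh t j'' (C.comp (ϖ t j'') (C.comp g1 g))
              ⟨_, hJ _ _ _ _ _ hg1, rfl⟩
            rw [comp_assoc, comp_assoc] at h3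
            rw [comp_assoc]
            exact h3
          · rintro A B D g1 t1 ⟨g2, hg2, rfl⟩
            exact ⟨C.comp g2 t1, hJ _ _ _ _ _ hg2, comp_assoc C _ _ _⟩

/-- The pigeonhole principle for states. -/
theorem states (hsum : ∀ i, ∑ s, ϖ s i = dg C (o i)) (hJ : RightIdeal C J) (c : S → ℕ)
    (hc : ∀ s, 0 < c s) (hs : ∀ s i, Kill C (stF ϖ J s) (c s) (ϖ s i)) :
    Nilp C J (∑ s, c s) := by
  intro i
  rw [← hsum i]
  refine Kill.sum _ fun t _ => ?_
  have hpos : 0 < ∑ s, c s :=
    Finset.sum_pos (fun s _ => hc s) ⟨t, Finset.mem_univ _⟩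
  obtain ⟨n, hn⟩ : ∃ n, ∑ s, c s = n + 1 := ⟨_, (Nat.succ_pred_eq_of_pos hpos).symm⟩
  rw [hn]
  refine states_aux ϖ hsum hJ n (Function.update c t (c t - 1)) ?_ fun s => ?_
  · have h3 := Finset.add_sum_erase Finset.univ c (Finset.mem_univ t)
    have h4 := Finset.add_sum_erase Finset.univ (Function.update c t (c t - 1))
      (Finset.mem_univ t)
    rw [← h4, Function.update_self]
    have h5 : ∑ x ∈ Finset.univ.erase t, Function.update c t (c t - 1) x =
        ∑ x ∈ Finset.univ.erase t, c x :=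
      Finset.sum_congr rfl fun x hx => Function.update_of_ne (Finset.ne_of_mem_erase hx) _ _
    rw [h5]
    have := hc t
    omega
  · by_cases hst : s = t
    · subst hst
      rw [Function.update_self, Nat.sub_add_cancel (hc s)]
      exact hs s i
    · rw [Function.update_of_ne hst]
      rintro j _ ⟨g, hg, rfl⟩
      rw [comp_assoc]
      exact (hs s j).right _

/-- Corners. -/
lemma corner (s : S) {J' : Fam C o} (hidem : ∀ i, C.comp (ϖ s i) (ϖ s i) = ϖ s i)
    (hJ' : ∀ i j, ∀ g ∈ J i j, C.comp (C.comp (ϖ s i) g) (ϖ s j) ∈ J' i j) {n : ℕ}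
    {h : C.A ((o i).prod Z)} (hh : C.comp (ϖ s i) h = h) (a : Kill C J' n h) :
    Kill C (stF ϖ J s) n h := by
  induction n generalizing i with
  | zero => exact a
  | succ n ih =>
    rintro j _ ⟨g, hg, rfl⟩
    have h1 : C.comp (C.comp (ϖ s j) g) h =
        C.comp (C.comp (C.comp (ϖ s j) g) (ϖ s i)) h := by
      rw [comp_assoc C (C.comp (ϖ s j) g), hh]
    refine ih ?_ ?_
    · rw [← comp_assoc, ← comp_assoc, hidem j]
    · rw [h1]
      exact a j _ (hJ' _ _ _ hg)

end states

/-! ### Parities -/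

section parity

/-- The sum of two families. -/
def addF (J₀ J₁ : Fam C o) : Fam C o := fun i j => {f | ∃ a ∈ J₀ i j, ∃ b ∈ J₁ i j, f = a + b}

variable {J₀ J₁ : Fam C o}

/-- The conditions on a homogeneous class `h`. -/
lemma parity_aux
    (h10 : ∀ (i j l : I) (g : C.A ((o i).prod (o j))) (t : C.A ((o j).prod (o l))),
      g ∈ J₁ i j → t ∈ J₀ j l → C.comp g t ∈ J₁ i l)
    (h11 : ∀ (i j l : I) (g : C.A ((o i).prod (o j))) (t : C.A ((o j).prod (o l))),
      g ∈ J₁ i j → t ∈ J₁ j l → C.comp g t ∈ J₀ i l) (n : ℕ) (p q : ℕ) (hpq : p + q = n)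
    {h : C.A ((o i).prod Z)}
    (hp : ∀ j, ∀ g ∈ J₀ j i, Kill C J₀ p (C.comp g h))
    (hq : ∀ j, ∀ g ∈ J₁ j i, Kill C J₀ q (C.comp g h)) :
    Kill C (addF J₀ J₁) (n + 1) h := by
  induction n generalizing p q i with
  | zero =>
    rintro j _ ⟨a, ha, b, hb, rfl⟩
    obtain ⟨rfl, rfl⟩ : p = 0 ∧ q = 0 := by omega
    rw [kill_zero, add_comp]
    have h1 := hp j a ha
    have h2 := hq j b hb
    rw [kill_zero] at h1 h2
    rw [h1, h2, add_zero]
  | succ n ih =>
    rintro j _ ⟨a, ha, b, hb, rfl⟩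
    rw [add_comp]
    refine Kill.add ?_ ?_
    · have h1 := hp j a ha
      rcases p with _ | p
      · rw [kill_zero] at h1
        rw [h1]
        exact Kill.zero _
      · refine ih p q (by omega) (fun j' g hg => h1 j' g hg) (fun j' g hg => ?_)
        rw [← comp_assoc]
        exact hq j' _ (h10 _ _ _ _ _ hg ha)
    · have h1 := hq j b hb
      rcases q with _ | q
      · rw [kill_zero] at h1
        rw [h1]
        exact Kill.zero _
      · refine ih q p (by omega) (fun j' g hg => h1 j' g hg) (fun j' g hg => ?_)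
        rw [← comp_assoc]
        exact hp j' _ (h11 _ _ _ _ _ hg hb)

theorem parity
    (h10 : ∀ (i j l : I) (g : C.A ((o i).prod (o j))) (t : C.A ((o j).prod (o l))),
      g ∈ J₁ i j → t ∈ J₀ j l → C.comp g t ∈ J₁ i l)
    (h11 : ∀ (i j l : I) (g : C.A ((o i).prod (o j))) (t : C.A ((o j).prod (o l))),
      g ∈ J₁ i j → t ∈ J₁ j l → C.comp g t ∈ J₀ i l) {N : ℕ} (hN : Nilp C J₀ (N + 1)) :
    Nilp C (addF J₀ J₁) (2 * (N + 1)) := by
  intro i
  have e : 2 * (N + 1) = (2 * N + 1) + 1 := by omega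
  rw [e]
  refine parity_aux h10 h11 (2 * N + 1) N (N + 1) (by omega)
    (fun j g hg => ?_) (fun j g hg => ?_)
  · rw [comp_dg]
    exact hN.kill_mem hg
  · exact hN.kill _

end parity

/-! ### Homologically trivial correspondences -/

section hom

variable {K : Type w} [Field K] (H : WeilTheoryData.{u, v, w} C K) [hH : IsWeilProj H]

/-- The homologically trivial correspondences. -/
def homF (o : I → 𝒱.Obj) : Fam C o := fun i j => {f | H.cl (X := (o i).prod (o j)) f = 0}

variable {H}

lemma cl_comp_left {X Y Z : 𝒱.Obj} (t : C.A (X.prod Y)) {g : C.A (Y.prod Z)} (hg : H.cl g = 0) :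
    H.cl (C.comp t g) = 0 := by
  rw [cl_comp, hg, comp_zero]

lemma cl_comp_right {X Y Z : 𝒱.Obj} {g : C.A (X.prod Y)} (t : C.A (Y.prod Z)) (hg : H.cl g = 0) :
    H.cl (C.comp g t) = 0 := by
  rw [cl_comp, hg, zero_comp]

lemma homF_left : LeftIdeal C (homF H o) := fun _ _ _ t _ hg => cl_comp_left t hg

lemma homF_right : RightIdeal C (homF H o) := fun _ _ _ _ t hg => cl_comp_right t hg

variable {I' : Type x} {o' : I' → 𝒱.Obj}

lemma dominated_aux (hd : ∀ j : I', ∃ (m : ℕ) (W : Fin m → I) (a : ∀ s, C.A ((o' j).prod (o (W s))))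
      (b : ∀ s, C.A ((o (W s)).prod (o' j))), dg C (o' j) = ∑ s, C.comp (a s) (b s))
    {n : ℕ} {h : C.A ((o i).prod Z)} (hh : Kill C (homF H o) n h) {j : I'}
    (a : C.A ((o' j).prod (o i))) : Kill C (homF H o') n (C.comp a h) := by
  induction n generalizing i j with
  | zero =>
    rw [kill_zero] at *
    rw [hh, comp_zero]
  | succ n ih =>
    intro j' g hg
    obtain ⟨m, W, b, c, hd'⟩ := hd j'
    have h1 : C.comp g (C.comp a h) = ∑ s, C.comp (b s) (C.comp (C.comp (C.comp (c s) g) a) h) := by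
      rw [← dg_comp C (C.comp g (C.comp a h)), hd', sum_comp]
      refine Finset.sum_congr rfl fun s _ => ?_
      rw [comp_assoc, comp_assoc, comp_assoc]
    rw [h1]
    refine Kill.sum _ fun s _ => ih ?_ _
    exact hh _ _ (cl_comp_right _ (cl_comp_left _ hg))

/-- The nilpotence is inherited by dominated varieties. -/
theorem Nilp.dominated (hd : ∀ j : I', ∃ (m : ℕ) (W : Fin m → I)
      (a : ∀ s, C.A ((o' j).prod (o (W s)))) (b : ∀ s, C.A ((o (W s)).prod (o' j))),
        dg C (o' j) = ∑ s, C.comp (a s) (b s)) {n : ℕ} (h : Nilp C (homF H o) n) :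
    Nilp C (homF H o') n := by
  intro j
  obtain ⟨m, W, a, b, hd'⟩ := hd j
  rw [hd']
  exact Kill.sum _ fun s _ => dominated_aux hd (h.kill _) _

end hom

end Pool.Agent.K1H14.BB
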