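import Mathlib

/-!
# Spectral idempotents
-/

open Polynomial

namespace Pool.Agent.K1H14.BB

section idem

variable {R : Type*} [Ring R] [Algebra ℚ R]

/-- The spectral idempotents of an element annihilated by a product of coprime polynomials. -/
lemma exists_idem (D : R) {ι : Type*} [Fintype ι] [DecidableEq ι] [Nonempty ι] (g : ι → ℚ[X])
    (hg : Pairwise fun i j => IsCoprime (g i) (g j)) (hF : aeval D (∏ i, g i) = 0) :
    ∃ ϖ : ι → R, ∑ i, ϖ i = 1 ∧ (∀ i, ϖ i * ϖ i = ϖ i) ∧ (∀ i, aeval D (g i) * ϖ i = 0) ∧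
      ∀ i (p : ℚ[X]), aeval D p * ϖ i = ϖ i * aeval D p := by
  classical
  have h1 : ∃ μ : ι → ℚ[X], (∑ i, μ i * ∏ j ∈ Finset.univ \ {i}, g j) = 1 := by
    rw [exists_sum_eq_one_iff_pairwise_coprime (Finset.univ_nonempty)]
    intro i j hij
    exact hg (fun h => hij (Subtype.ext h))
  obtain ⟨μ, hμ⟩ := h1
  have hz : ∀ i, g i * (μ i * ∏ j ∈ Finset.univ \ {i}, g j) = μ i * ∏ j, g j := by
    intro i
    rw [← Finset.mul_prod_erase Finset.univ g (Finset.mem_univ i), Finset.sdiff_singleton_eq_erase]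
    ring
  have hcomm : ∀ p q : ℚ[X], aeval D p * aeval D q = aeval D q * aeval D p := by
    intro p q
    rw [← map_mul, ← map_mul, mul_comm]
  have hkey : ∀ i, aeval D (g i) * aeval D (μ i * ∏ j ∈ Finset.univ \ {i}, g j) = 0 := by
    intro i
    rw [← map_mul, hz, map_mul, hF, mul_zero]
  have hsum : ∑ i, aeval D (μ i * ∏ j ∈ Finset.univ \ {i}, g j) = 1 := by
    rw [← map_sum, hμ, map_one]
  have horth : ∀ i j, i ≠ j → aeval D (μ j * ∏ l ∈ Finset.univ \ {j}, g l) *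
      aeval D (μ i * ∏ l ∈ Finset.univ \ {i}, g l) = 0 := by
    intro i j hij
    have h2 : ∏ l ∈ Finset.univ \ {j}, g l = g i * ∏ l ∈ (Finset.univ \ {j}).erase i, g l := by
      rw [Finset.mul_prod_erase]
      rw [Finset.mem_sdiff, Finset.mem_singleton]
      exact ⟨Finset.mem_univ _, hij⟩
    rw [h2, ← map_mul]
    have h3 : μ j * (g i * ∏ l ∈ (Finset.univ \ {j}).erase i, g l) *
        (μ i * ∏ l ∈ Finset.univ \ {i}, g l) = (μ j * ∏ l ∈ (Finset.univ \ {j}).erase i, g l) *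
          (g i * (μ i * ∏ l ∈ Finset.univ \ {i}, g l)) := by ring
    rw [h3, map_mul, map_mul (aeval D) (g i), hkey, mul_zero]
  refine ⟨fun i => aeval D (μ i * ∏ j ∈ Finset.univ \ {i}, g j), hsum, fun i => ?_, hkey,
    fun i p => hcomm _ _⟩
  have h4 : aeval D (μ i * ∏ j ∈ Finset.univ \ {i}, g j) *
      ∑ j, aeval D (μ j * ∏ l ∈ Finset.univ \ {j}, g l) =
      aeval D (μ i * ∏ j ∈ Finset.univ \ {i}, g j) := by rw [hsum, mul_one]
  rw [Finset.mul_sum, Finset.sum_eq_single i] at h4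
  · exact h4
  · intro j _ hji
    rw [hcomm]
    exact horth i j hji.symm
  · intro h
    exact absurd (Finset.mem_univ i) h

end idem

/-- The polynomial `X ∏_{e=1}^n (X ^ 2 + c e ^ 2)`. -/
noncomputable def fP (c : ℚ) (n : ℕ) : ℚ[X] :=
  X * ∏ e ∈ Finset.range n, (X ^ 2 + C (c * ((e : ℚ) + 1) ^ 2))

section comm

variable {R : Type*} [CommRing R] [Algebra ℚ R]

lemma aeval_fP (c : ℚ) (n : ℕ) (x : R) : aeval x (fP c n) =
    x * ∏ e ∈ Finset.range n, (x ^ 2 + algebraMap ℚ R c * ((e : R) + 1) ^ 2) := by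
  rw [fP, map_mul, aeval_X, map_prod]
  congr 1
  refine Finset.prod_congr rfl fun e _ => ?_
  rw [map_add, map_pow, aeval_X, aeval_C, map_mul, map_pow, map_add, map_one, map_natCast]

omit [Algebra ℚ R] in
/-- The polynomial with `c = -a ^ 2`. -/
lemma shift_id (a b : R) (n : ℕ) :
    (a + b) * ∏ e ∈ Finset.range (n + 1), ((a + b) ^ 2 - a ^ 2 * ((e : R) + 1) ^ 2) =
      b * (∏ e ∈ Finset.range n, (b ^ 2 - a ^ 2 * ((e : R) + 1) ^ 2)) *
        ((b + (n + 1) * a) * (b + (n + 2) * a)) := by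
  induction n with
  | zero => simp; ring
  | succ n ih =>
    rw [Finset.prod_range_succ, ← mul_assoc, ih, Finset.prod_range_succ]
    push_cast
    ring

omit [Algebra ℚ R] in
/-- Multiples of `a ^ 2`. -/
lemma sq_mul_prod {a : R} {c : R} (h : a ^ 2 * (a ^ 2 + c) = 0) (x : R) (n : ℕ) :
    a ^ 2 * ∏ e ∈ Finset.range n, (x ^ 2 + c * ((e : R) + 1) ^ 2) =
      a ^ 2 * ∏ e ∈ Finset.range n, (x ^ 2 - a ^ 2 * ((e : R) + 1) ^ 2) := by
  induction n with
  | zero => simp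
  | succ n ih =>
    rw [Finset.prod_range_succ, Finset.prod_range_succ, ← mul_assoc, ih]
    linear_combination (∏ e ∈ Finset.range n, (x ^ 2 - a ^ 2 * ((e : R) + 1) ^ 2)) *
      ((n : R) + 1) ^ 2 * h

lemma fP_add_comm {c : ℚ} (hc : c ≠ 0) {a b : R} (ha : a ^ 3 = -(algebraMap ℚ R c) * a) (n : ℕ)
    (hb : aeval b (fP c n) = 0) : aeval (a + b) (fP c (n + 1)) = 0 := by
  rw [aeval_fP] at *
  set γ := algebraMap ℚ R c with hγ
  obtain ⟨δ, hδ⟩ : ∃ δ : R, γ * δ = 1 :=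
    ⟨algebraMap ℚ R c⁻¹, by rw [hγ, ← map_mul, mul_inv_cancel₀ hc, map_one]⟩
  have h1 : a ^ 2 * (a ^ 2 + γ) = 0 := by linear_combination a * ha
  have h2 : a * (a ^ 2 + γ) = 0 := by linear_combination ha
  -- multiplication by `a ^ 2`
  have h3 : a ^ 2 * ((a + b) * ∏ e ∈ Finset.range (n + 1), ((a + b) ^ 2 + γ * ((e : R) + 1) ^ 2)) =
      0 := by
    have h4 := sq_mul_prod h1 (a + b) (n + 1)
    have h5 := sq_mul_prod h1 b n
    have h6 := shift_id a b n
    calc a ^ 2 * ((a + b) * ∏ e ∈ Finset.range (n + 1), ((a + b) ^ 2 + γ * ((e : R) + 1) ^ 2))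
        = (a + b) * (a ^ 2 * ∏ e ∈ Finset.range (n + 1),
            ((a + b) ^ 2 + γ * ((e : R) + 1) ^ 2)) := by ring
      _ = a ^ 2 * ((a + b) * ∏ e ∈ Finset.range (n + 1),
            ((a + b) ^ 2 - a ^ 2 * ((e : R) + 1) ^ 2)) := by rw [h4]; ring
      _ = b * (a ^ 2 * ∏ e ∈ Finset.range n, (b ^ 2 - a ^ 2 * ((e : R) + 1) ^ 2)) *
            ((b + (n + 1) * a) * (b + (n + 2) * a)) := by rw [h6]; ring
      _ = a ^ 2 * (b * ∏ e ∈ Finset.range n, (b ^ 2 + γ * ((e : R) + 1) ^ 2)) *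
            ((b + (n + 1) * a) * (b + (n + 2) * a)) := by rw [← h5]; ring
      _ = 0 := by rw [hb]; ring
  -- multiplication by `a ^ 2 + γ`
  have h4 : (a ^ 2 + γ) * ((a + b) * ∏ e ∈ Finset.range (n + 1),
      ((a + b) ^ 2 + γ * ((e : R) + 1) ^ 2)) = 0 := by
    have h5 : ∀ m : ℕ, (a ^ 2 + γ) * ∏ e ∈ Finset.range m,
        ((a + b) ^ 2 + γ * ((e : R) + 1) ^ 2) =
        (a ^ 2 + γ) * ∏ e ∈ Finset.range m, (b ^ 2 + γ * ((e : R) + 1) ^ 2) := by
      intro m
      induction m with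
      | zero => simp
      | succ m ih =>
        rw [Finset.prod_range_succ, Finset.prod_range_succ, ← mul_assoc, ih]
        linear_combination (∏ e ∈ Finset.range m, (b ^ 2 + γ * ((e : R) + 1) ^ 2)) *
          (a + 2 * b) * h2
    calc (a ^ 2 + γ) * ((a + b) * ∏ e ∈ Finset.range (n + 1),
          ((a + b) ^ 2 + γ * ((e : R) + 1) ^ 2))
        = (a + b) * ((a ^ 2 + γ) * ∏ e ∈ Finset.range (n + 1),
          ((a + b) ^ 2 + γ * ((e : R) + 1) ^ 2)) := by ring
      _ = (a * (a ^ 2 + γ)) * (∏ e ∈ Finset.range (n + 1), (b ^ 2 + γ * ((e : R) + 1) ^ 2)) +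
          (a ^ 2 + γ) * (b * ∏ e ∈ Finset.range (n + 1), (b ^ 2 + γ * ((e : R) + 1) ^ 2)) := by
          rw [h5]; ring
      _ = 0 := by
          rw [h2, Finset.prod_range_succ, ← mul_assoc b, hb]; ring
  linear_combination δ * h4 - δ * h3 - ((a + b) * ∏ e ∈ Finset.range (n + 1),
    ((a + b) ^ 2 + γ * ((e : R) + 1) ^ 2)) * hδ

end comm

/-- The relation for sums of commuting elements. -/
lemma fP_add {R : Type*} [Ring R] [Algebra ℚ R] {c : ℚ} (hc : c ≠ 0) {a b : R}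
    (hab : a * b = b * a) (ha : a ^ 3 = -(c • a)) (n : ℕ)
    (hb : aeval b (fP c n) = 0) : aeval (a + b) (fP c (n + 1)) = 0 := by
  have hcomm : ∀ x ∈ ({a, b} : Set R), ∀ y ∈ ({a, b} : Set R), x * y = y * x := by
    rintro x (rfl | rfl) y (rfl | rfl)
    · rfl
    · exact hab
    · exact hab.symm
    · rfl
  let S := Algebra.adjoin ℚ ({a, b} : Set R)
  have key : ∀ (x : S) (p : ℚ[X]), ((aeval x p : S) : R) = aeval (x : R) p :=
    fun x p => (Polynomial.aeval_algHom_apply S.val x p).symm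
  have hmc : IsMulCommutative S := Algebra.isMulCommutative_adjoin ℚ hcomm
  let _ : CommRing S := { (inferInstance : Ring S) with mul_comm := hmc.is_comm.comm }
  let a' : S := ⟨a, Algebra.subset_adjoin (Set.mem_insert _ _)⟩
  let b' : S := ⟨b, Algebra.subset_adjoin (Set.mem_insert_of_mem _ rfl)⟩
  have h1 : a' ^ 3 = -(algebraMap ℚ S c) * a' := by
    apply Subtype.ext
    change a ^ 3 = -(algebraMap ℚ R c) * a
    rw [ha, neg_mul, Algebra.smul_def]
  have h2 : aeval b' (fP c n) = 0 := by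
    apply Subtype.ext
    exact (key b' (fP c n)).trans hb
  have h3 := fP_add_comm hc h1 n h2
  exact (key (a' + b') (fP c (n + 1))).symm.trans (congrArg Subtype.val h3)

end Pool.Agent.K1H14.BB
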