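import Pool.Agent.K1H14.BB.Key
import Pool.Agent.K1H14.BB.Poly

/-!
# Powers of an elliptic curve and the sum of the complex multiplications
-/

open CategoryTheory AlgebraicGeometry

universe u v w x

namespace Pool.Agent.K1H14.BB

open Pool.Agent.H914 Pool.Agent.H914.VarClass Pool.Agent.H914.VarClass.Obj Pool.Agent.W492.BB
  Pool.Agent.W550.Corr Pool.Agent.TH133 Pool.Agent.Y152.AS Pool.Agent.R904.CM
open Pool.Agent.TH829.Kim (base_pull)
open Pool.Agent.R904.Voi (vl pull_vl vl_univ vl_mem vl_add vl_sub vl_smul vl_pull vl_fst vl_snd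
  vl_tp vl_comp vl_sum)
open Function (update update_self update_of_ne)

set_option linter.unusedSectionVars false

variable {k : Type u} [Field k] {𝒱 : VarClass k}

variable {E W V : 𝒱.Obj}

/-- The point of `E ^ (n + 1)` with given coordinates. -/
noncomputable def mkp : ∀ n : ℕ, (Fin (n + 1) → (W ⟶ E)) → (W ⟶ pw E n)
  | 0, t => t 0
  | n + 1, t => Obj.lift (t 0) (mkp n fun i => t i.succ)

/-- The coordinates of a point of `E ^ (n + 1)`. -/
noncomputable def cds : ∀ n : ℕ, (W ⟶ pw E n) → Fin (n + 1) → (W ⟶ E)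
  | 0, p => fun _ => p
  | n + 1, p => Fin.cons (p ≫ fst E (pw E n)) (cds n (p ≫ snd E (pw E n)))

lemma mkp_cds (n : ℕ) (p : W ⟶ pw E n) : mkp n (cds n p) = p := by
  induction n with
  | zero => rfl
  | succ n ih =>
    have h : Obj.lift (p ≫ fst E (pw E n)) (mkp n (cds n (p ≫ snd E (pw E n)))) =
        (p : W ⟶ E.prod (pw E n)) := by
      rw [ih]
      exact prod_ext (lift_fst _ _) (lift_snd _ _)
    exact h

lemma comp_mkp (f : V ⟶ W) (n : ℕ) (t : Fin (n + 1) → (W ⟶ E)) :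
    f ≫ mkp n t = mkp n fun i => f ≫ t i := by
  induction n with
  | zero => rfl
  | succ n ih =>
    have h : f ≫ Obj.lift (t 0) (mkp n fun i => t i.succ) =
        Obj.lift (f ≫ t 0) (mkp n fun i => f ≫ t i.succ) := by
      rw [comp_lift, ih]
    exact h

lemma comp_cds (f : V ⟶ W) (n : ℕ) (p : W ⟶ pw E n) (i : Fin (n + 1)) :
    f ≫ cds n p i = cds n (f ≫ p) i := by
  induction n with
  | zero => rfl
  | succ n ih =>
    refine Fin.cases ?_ (fun i => ?_) i
    · exact (Category.assoc f p (fst E (pw E n))).symm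
    · have h1 := ih (p ≫ snd E (pw E n)) i
      have h2 : f ≫ (p ≫ snd E (pw E n)) = (f ≫ p) ≫ snd E (pw E n) :=
        (Category.assoc f p (snd E (pw E n))).symm
      rw [h2] at h1
      exact h1

variable {C : TheoryData.{u, v, 0} 𝒱 ℚ} [hC : IsChowProj C] {X X' Y Y' Z T : 𝒱.Obj}

include hC

/-- The value of the composition with `a ⊗ id`. -/
lemma vl_tens_left (a : C.A (X.prod X')) (z : C.A ((X'.prod Y).prod T)) (x : W ⟶ X) (y : W ⟶ Y)
    (c : W ⟶ T) : vl C (C.comp (tens C a (dg C Y)) z) (Obj.lift x y) c =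
      C.push (fst W X') (vl C a (fst W X' ≫ x) (snd W X') *
        vl C z (Obj.lift (snd W X') (fst W X' ≫ y)) (fst W X' ≫ c)) := by
  rw [vl_comp, fubini]
  congr 1
  have e1 : ∀ {Z : 𝒱.Obj} (f : W ⟶ Z), aI W X' Y ≫ fst W (X'.prod Y) ≫ f =
      fst (W.prod X') Y ≫ fst W X' ≫ f := by
    intro Z f
    rw [← Category.assoc, ← Category.assoc]
    congr 1
    simp [aI]
  have e2 : aI W X' Y ≫ snd W (X'.prod Y) = Obj.lift (fst (W.prod X') Y ≫ snd W X')
    (snd (W.prod X') Y) := by simp [aI]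
  rw [map_mul, pull_vl, pull_vl, e1, e1, e2, vl_tens, lift_fst, lift_snd]
  simp only [Category.assoc, lift_fst, lift_snd]
  rw [← pull_vl (fst (W.prod X') Y), mul_assoc, int_pull, ← Category.assoc (fst (W.prod X') Y),
    Category.assoc (fst (W.prod X') Y), int_dg, pull_vl, comp_lift]
  simp only [← Category.assoc, lift_fst, lift_snd, Category.id_comp]

/-- The value of the composition with `id ⊗ b`. -/
lemma vl_tens_right (b : C.A (Y.prod Y')) (z : C.A ((X.prod Y').prod T)) (x : W ⟶ X) (y : W ⟶ Y)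
    (c : W ⟶ T) : vl C (C.comp (tens C (dg C X) b) z) (Obj.lift x y) c =
      C.push (fst W Y') (vl C b (fst W Y' ≫ y) (snd W Y') *
        vl C z (Obj.lift (fst W Y' ≫ x) (snd W Y')) (fst W Y' ≫ c)) := by
  rw [vl_comp, fubini]
  have e1 : ∀ {Z : 𝒱.Obj} (f : W ⟶ Z), aI W X Y' ≫ fst W (X.prod Y') ≫ f =
      fst (W.prod X) Y' ≫ fst W X ≫ f := by
    intro Z f
    rw [← Category.assoc, ← Category.assoc]
    congr 1
    simp [aI]
  have e2 : aI W X Y' ≫ snd W (X.prod Y') = Obj.lift (fst (W.prod X) Y' ≫ snd W X)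
    (snd (W.prod X) Y') := by simp [aI]
  rw [map_mul, pull_vl, pull_vl, e1, e1, e2, vl_tens, lift_fst, lift_snd]
  simp only [Category.assoc, lift_fst, lift_snd]
  rw [← pull_vl (fst (W.prod X) Y') (dg C X), mul_assoc, int_pull, int_dg]
  rw [base_pull, map_mul, pull_vl, pull_vl, comp_lift]
  have e3 : prodMap (Obj.lift (𝟙 W) x) (𝟙 Y') ≫ fst (W.prod X) Y' ≫ fst W X = fst W Y' := by
    simp
  have e4 : prodMap (Obj.lift (𝟙 W) x) (𝟙 Y') ≫ fst (W.prod X) Y' ≫ snd W X = fst W Y' ≫ x := by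
    simp
  have e5 : prodMap (Obj.lift (𝟙 W) x) (𝟙 Y') ≫ snd (W.prod X) Y' = snd W Y' := by simp
  have e6 : ∀ {Z : 𝒱.Obj} (f : W ⟶ Z), prodMap (Obj.lift (𝟙 W) x) (𝟙 Y') ≫
      fst (W.prod X) Y' ≫ fst W X ≫ f = fst W Y' ≫ f := by
    intro Z f
    rw [← Category.assoc (fst (W.prod X) Y'), ← Category.assoc (prodMap _ _), e3]
  rw [e6, e6, e5, e4]

/-- The reassociation `X' × (Y × T) → (X' × Y) × T`. -/
noncomputable def ra (z : C.A ((X.prod Y).prod T)) : C.A (X.prod (Y.prod T)) :=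
  C.pull (aJ X Y T) z

lemma vl_ra (z : C.A ((X.prod Y).prod T)) (x : W ⟶ X) (y : W ⟶ Y) (c : W ⟶ T) :
    vl C (ra z) x (Obj.lift y c) = vl C z (Obj.lift x y) c := by
  rw [vl, ra, ← C.pull_comp, vl]
  congr 2
  apply prod_ext
  · apply prod_ext <;> simp [aJ, comp_lift]
  · simp [aJ, comp_lift]

/-- The reassociation `Y × (X × T) → (X × Y) × T`. -/
noncomputable def rb (z : C.A ((X.prod Y).prod T)) : C.A (Y.prod (X.prod T)) :=
  C.pull (Obj.lift (Obj.lift (snd Y (X.prod T) ≫ fst X T) (fst Y (X.prod T)))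
    (snd Y (X.prod T) ≫ snd X T)) z

lemma vl_rb (z : C.A ((X.prod Y).prod T)) (x : W ⟶ X) (y : W ⟶ Y) (c : W ⟶ T) :
    vl C (rb z) y (Obj.lift x c) = vl C z (Obj.lift x y) c := by
  rw [vl, rb, ← C.pull_comp, vl]
  congr 2
  apply prod_ext
  · apply prod_ext <;> simp [comp_lift]
  · simp [comp_lift]

lemma vl_comp_left (a : C.A (X.prod X')) (z : C.A ((X'.prod Y).prod T)) (x : W ⟶ X) (y : W ⟶ Y)
    (c : W ⟶ T) : vl C (C.comp (tens C a (dg C Y)) z) (Obj.lift x y) c =
      vl C (C.comp a (ra z)) x (Obj.lift y c) := by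
  rw [vl_tens_left, vl_comp, comp_lift, vl_ra]

lemma vl_comp_right (b : C.A (Y.prod Y')) (z : C.A ((X.prod Y').prod T)) (x : W ⟶ X) (y : W ⟶ Y)
    (c : W ⟶ T) : vl C (C.comp (tens C (dg C X) b) z) (Obj.lift x y) c =
      vl C (C.comp b (rb z)) y (Obj.lift x c) := by
  rw [vl_tens_right, vl_comp, comp_lift, vl_rb]

section curve

variable [GroupLaw E] {θ : C.A E} {u : E ⟶ E}

omit hC in
variable (C) in
/-- The complex multiplication on `h^1(E)`. -/
noncomputable def uE (θ : C.A E) (u : E ⟶ E) : C.A (E.prod E) := -bC θ (fst E E ≫ u) (snd E E)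

lemma vl_uE (x y : W ⟶ E) : vl C (uE C θ u) x y = -bC θ (x ≫ u) y := by
  rw [vl, uE, map_neg, pull_bC, lift_snd, ← Category.assoc, lift_fst]

omit hC in
variable (C) in
/-- The sum of the complex multiplications on `E ^ (n + 1)`. -/
noncomputable def uP (θ : C.A E) (u : E ⟶ E) : ∀ n : ℕ, C.A ((pw E n).prod (pw E n))
  | 0 => uE C (E := E) θ u
  | n + 1 => tens C (uE C θ u) (dg C (pw E n)) + tens C (dg C E) (uP θ u n)

/-- The inductive step. -/
lemma vl_step {n : ℕ} (P : C.A (X.prod X)) (mk : ∀ W : 𝒱.Obj, (Fin (n + 1) → (W ⟶ E)) → (W ⟶ X))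
    (hmk : ∀ (V W : 𝒱.Obj) (f : V ⟶ W) (t : Fin (n + 1) → (W ⟶ E)),
      f ≫ mk W t = mk V fun i => f ≫ t i)
    (ih : ∀ (W T : 𝒱.Obj) (z : C.A (X.prod T)) (t : Fin (n + 1) → (W ⟶ E)) (c : W ⟶ T),
      vl C (C.comp P z) (mk W t) c = ∑ i : Fin (n + 1),
        C.push (fst W E) (vl C (uE C θ u) (fst W E ≫ t i) (snd W E) *
          vl C z (mk _ (update (fun j => fst W E ≫ t j) i (snd W E))) (fst W E ≫ c)))
    (z : C.A ((E.prod X).prod T)) (t : Fin (n + 1 + 1) → (W ⟶ E)) (c : W ⟶ T) :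
    vl C (C.comp (tens C (uE C θ u) (dg C X) + tens C (dg C E) P) z)
        (Obj.lift (t 0) (mk W fun i => t i.succ)) c = ∑ i : Fin (n + 1 + 1),
      C.push (fst W E) (vl C (uE C θ u) (fst W E ≫ t i) (snd W E) *
        vl C z (Obj.lift (update (fun j => fst W E ≫ t j) i (snd W E) 0)
          (mk _ fun l => update (fun j => fst W E ≫ t j) i (snd W E) l.succ)) (fst W E ≫ c)) := by
  rw [add_comp, vl_add, vl_comp_right, ih, Fin.sum_univ_succ (n := n + 1)]
  congr 1
  · rw [vl_tens_left, update_self, hmk]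
    congr 2
  · refine Finset.sum_congr rfl fun i _ => ?_
    rw [comp_lift, vl_rb, update_of_ne (Fin.succ_ne_zero i).symm]
    have e3 : (update (fun j => fst W E ≫ t j.succ) i (snd W E)) =
        fun l => update (fun j => fst W E ≫ t j) i.succ (snd W E) l.succ := by
      funext j
      by_cases h : j = i
      · subst h
        rw [update_self, update_self]
      · rw [update_of_ne h, update_of_ne (fun h' => h (Fin.succ_injective _ h'))]
    rw [e3]

/-- The value of the composition with the sum of the complex multiplications. -/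
lemma vl_uP (n : ℕ) (W T : 𝒱.Obj) (z : C.A ((pw E n).prod T)) (t : Fin (n + 1) → (W ⟶ E))
    (c : W ⟶ T) :
    vl C (C.comp (uP C θ u n) z) (mkp n t) c = ∑ i : Fin (n + 1),
      C.push (fst W E) (vl C (uE C θ u) (fst W E ≫ t i) (snd W E) *
        vl C z (mkp n (update (fun j => fst W E ≫ t j) i (snd W E))) (fst W E ≫ c)) := by
  induction n generalizing W T with
  | zero =>
    rw [Fin.sum_univ_succ, Finset.univ_eq_empty, Finset.sum_empty, add_zero]
    exact vl_comp (X := E) (Y := E) (uE C θ u) z (t 0) c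
  | succ n ih =>
    exact vl_step (uP C θ u n) (fun W t => mkp n t) (fun V W f t => comp_mkp f n t)
      (fun W T z t c => ih W T z t c) z t c

end curve

end Pool.Agent.K1H14.BB
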