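import Pool.Agent.K1H14.BB.Rel

/-!
# Nilpotence for varieties dominated by products with powers of an elliptic curve
-/

open CategoryTheory AlgebraicGeometry

universe u v w x

namespace Pool.Agent.K1H14.BB

open Pool.Agent.H914 Pool.Agent.H914.VarClass Pool.Agent.H914.VarClass.Obj Pool.Agent.W492.BB
  Pool.Agent.W550.Corr Pool.Agent.TH133 Pool.Agent.Y152.AS Pool.Agent.R904.CM
open Pool.Agent.TH829.Kim (base_pull)
open Pool.Agent.R904.Voi (vl pull_vl vl_univ vl_mem vl_add vl_sub vl_smul vl_pull vl_fst vl_snd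
  vl_tp vl_comp vl_sum ext_vl)
open Function (update update_self update_of_ne)

set_option linter.unusedSectionVars false

variable {k : Type u} [Field k] {𝒱 : VarClass k} {C : TheoryData.{u, v, 0} 𝒱 ℚ}
  [hC : IsChowProj C] {K : Type w} [Field K] {H : WeilTheoryData.{u, v, w} C K}
  [hH : IsWeilProj H] {E W V X X' Y Y' Z T : 𝒱.Obj}

/-! ### The family of a correspondence -/

/-- The family of values of a correspondence. -/
noncomputable def fam (n : ℕ) (z : C.A (((pw E n).prod Y).prod ((pw E n).prod Y'))) :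
    FamT C (Fin (n + 1) ⊕ Fin (n + 1)) E (Y.prod Y') := fun _ t r =>
  vl C z (Obj.lift (mkp n fun i => t (Sum.inl i)) (r ≫ fst Y Y'))
    (Obj.lift (mkp n fun i => t (Sum.inr i)) (r ≫ snd Y Y'))

lemma fam_nat (n : ℕ) (z : C.A (((pw E n).prod Y).prod ((pw E n).prod Y'))) :
    IsNat (fam n z) := by
  intro V W f t r
  rw [fam, pull_vl, comp_lift, comp_lift, comp_mkp, comp_mkp]
  simp only [fam, Category.assoc]

lemma fam_ht (n : ℕ) {z : C.A (((pw E n).prod Y).prod ((pw E n).prod Y'))} (hz : H.cl z = 0) :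
    IsHT H (fam n z) := by
  intro W t r
  rw [fam, vl, H.cl_pull, hz, map_zero]

/-- The universal point of the first power. -/
noncomputable def un (n : ℕ) (E Y Y' : 𝒱.Obj) :
    Fin (n + 1) ⊕ Fin (n + 1) → (((pw E n).prod Y).prod ((pw E n).prod Y') ⟶ E) :=
  Sum.elim (cds n (fst _ _ ≫ fst _ _)) (cds n (snd _ _ ≫ fst _ _))

/-- The universal point of `Y × Y'`. -/
noncomputable def ur (n : ℕ) (E Y Y' : 𝒱.Obj) :
    ((pw E n).prod Y).prod ((pw E n).prod Y') ⟶ Y.prod Y' :=
  prodMap (snd (pw E n) Y) (snd (pw E n) Y')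

lemma fam_univ (n : ℕ) (z : C.A (((pw E n).prod Y).prod ((pw E n).prod Y'))) :
    fam n z _ (un n E Y Y') (ur n E Y Y') = z := by
  rw [fam]
  have e1 : (mkp n fun i => un n E Y Y' (Sum.inl i)) = fst _ _ ≫ fst _ _ := mkp_cds n _
  have e2 : (mkp n fun i => un n E Y Y' (Sum.inr i)) = snd _ _ ≫ fst _ _ := mkp_cds n _
  rw [e1, e2, ur, prodMap_fst, prodMap_snd]
  have e3 : Obj.lift (fst ((pw E n).prod Y) ((pw E n).prod Y') ≫ fst (pw E n) Y)
      (fst ((pw E n).prod Y) ((pw E n).prod Y') ≫ snd (pw E n) Y) = fst _ _ := by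
    rw [← comp_lift, lift_eta, Category.comp_id]
  have e4 : Obj.lift (snd ((pw E n).prod Y) ((pw E n).prod Y') ≫ fst (pw E n) Y')
      (snd ((pw E n).prod Y) ((pw E n).prod Y') ≫ snd (pw E n) Y') = snd _ _ := by
    rw [← comp_lift, lift_eta, Category.comp_id]
  rw [e3, e4, vl_univ]

/-! ### The span of the external products -/

variable (H) in
/-- The span of the classes `a ⊗ η` with `η` homologically trivial. -/
noncomputable def AJ (P Y Y' : 𝒱.Obj) : Submodule ℚ (C.A ((P.prod Y).prod (P.prod Y'))) :=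
  Submodule.span ℚ {z | ∃ (a : C.A (P.prod P)) (η : C.A (Y.prod Y')), H.cl η = 0 ∧
    z = tens C a η}

lemma Sp.aj {n : ℕ} {φ : FamT C (Fin (n + 1) ⊕ Fin (n + 1)) E (Y.prod Y')} (h : Sp H φ) :
    φ _ (un n E Y Y') (ur n E Y Y') ∈ AJ H (pw E n) Y Y' := by
  induction h with
  | zero => exact Submodule.zero_mem _
  | add h1 h2 ih1 ih2 => exact Submodule.add_mem _ ih1 ih2
  | mk a ha η hη =>
    refine Submodule.subset_span ⟨a ((pw E n).prod (pw E n)) (Sum.elim (cds n (fst _ _))
      (cds n (snd _ _))), η, hη, ?_⟩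
    rw [tens, ha, ur]
    congr 2
    funext i
    rcases i with i | i
    · simp only [Sum.elim_inl, un]
      rw [comp_cds, prodMap_fst]
    · simp only [Sum.elim_inr, un]
      rw [comp_cds, prodMap_snd]

section curve

variable [GroupLaw E] {θ : C.A E} {u : E ⟶ E} {d : ℕ}

/-- The sum of the complex multiplications on `E ^ (n + 1) × Y`. -/
noncomputable def Dn (C : TheoryData.{u, v, 0} 𝒱 ℚ) [hC : IsChowProj C] {E : 𝒱.Obj} [GroupLaw E] (θ : C.A E)
    (u : E ⟶ E) (n : ℕ) (Y : 𝒱.Obj) :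
    C.A (((pw E n).prod Y).prod ((pw E n).prod Y)) := tens C (uP C θ u n) (dg C Y)

lemma nv_inl (n : ℕ) (t : Fin (n + 1) ⊕ Fin (n + 1) → (W ⟶ E)) (i : Fin (n + 1)) :
    (fun j => nv t (Sum.inl i) (Sum.inl j)) =
      update (fun j => fst W E ≫ t (Sum.inl j)) i (snd W E) := by
  funext j
  by_cases h : j = i
  · subst h
    rw [nv_self, update_self]
  · rw [nv_ne _ (fun h' => h (Sum.inl_injective h')), update_of_ne h]

lemma nv_inl' (n : ℕ) (t : Fin (n + 1) ⊕ Fin (n + 1) → (W ⟶ E)) (i : Fin (n + 1)) :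
    (fun j => nv t (Sum.inl i) (Sum.inr j)) = fun j => fst W E ≫ t (Sum.inr j) := by
  funext j
  rw [nv_ne _ Sum.inr_ne_inl]

lemma nv_inr (n : ℕ) (t : Fin (n + 1) ⊕ Fin (n + 1) → (W ⟶ E)) (i : Fin (n + 1)) :
    (fun j => nv t (Sum.inr i) (Sum.inr j)) =
      update (fun j => fst W E ≫ t (Sum.inr j)) i (snd W E) := by
  funext j
  by_cases h : j = i
  · subst h
    rw [nv_self, update_self]
  · rw [nv_ne _ (fun h' => h (Sum.inr_injective h')), update_of_ne h]

lemma nv_inr' (n : ℕ) (t : Fin (n + 1) ⊕ Fin (n + 1) → (W ⟶ E)) (i : Fin (n + 1)) :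
    (fun j => nv t (Sum.inr i) (Sum.inl j)) = fun j => fst W E ≫ t (Sum.inl j) := by
  funext j
  rw [nv_ne _ Sum.inl_ne_inr]

/-- The composition with `Dn` on the left. -/
lemma fam_left (n : ℕ) (z : C.A (((pw E n).prod Y).prod ((pw E n).prod Y')))
    (t : Fin (n + 1) ⊕ Fin (n + 1) → (W ⟶ E)) (r : W ⟶ Y.prod Y') :
    fam n (C.comp (Dn C θ u n Y) z) W t r =
      ∑ i : Fin (n + 1), UU θ u (fam n z) (Sum.inl i) W t r := by
  rw [fam, Dn, vl_comp_left, vl_uP]
  refine Finset.sum_congr rfl fun i _ => ?_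
  rw [UU_eq, KK, comp_lift, vl_ra, fam, nv_inl, nv_inl', comp_lift, comp_mkp, Category.assoc,
    Category.assoc]
  rfl

lemma tp_Dn (h : Setup θ u d) (n : ℕ) (Y : 𝒱.Obj) : tp C (Dn C θ u n Y) = -Dn C θ u n Y := by
  rw [Dn, tp_tens, tp_uP h, tp_dg, tens, tens, map_neg, neg_mul]

/-- The composition with `Dn` on the right. -/
lemma fam_right (h : Setup θ u d) (n : ℕ) (z : C.A (((pw E n).prod Y).prod ((pw E n).prod Y')))
    (t : Fin (n + 1) ⊕ Fin (n + 1) → (W ⟶ E)) (r : W ⟶ Y.prod Y') :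
    fam n (C.comp z (Dn C θ u n Y')) W t r =
      -∑ i : Fin (n + 1), UU θ u (fam n z) (Sum.inr i) W t r := by
  have h1 : C.comp z (Dn C θ u n Y') = -tp C (C.comp (Dn C θ u n Y') (tp C z)) := by
    rw [tp_comp C (ch_comm C), tp_tp, tp_Dn h]
    have := map_neg (compL C z) (Dn C θ u n Y')
    rw [compL_apply, compL_apply] at this
    rw [this, neg_neg]
  rw [fam, h1, R904.CM.vl_neg, vl_tp, Dn, vl_comp_left, vl_uP]
  congr 1
  refine Finset.sum_congr rfl fun i _ => ?_
  rw [UU_eq, KK, comp_lift, vl_ra, vl_tp, fam, nv_inr, nv_inr', comp_lift, comp_mkp,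
    Category.assoc, Category.assoc]
  rfl

/-- Homologically trivial correspondences commuting with the sum of the complex
multiplications. -/
theorem comm_aj (h : Setup θ u d) (n : ℕ)
    {z : C.A (((pw E n).prod Y).prod ((pw E n).prod Y'))} (hz : H.cl z = 0)
    (hcomm : C.comp (Dn C θ u n Y) z = C.comp z (Dn C θ u n Y')) :
    z ∈ AJ H (pw E n) Y Y' := by
  have h1 : DD θ u Finset.univ (fam n z) := by
    intro W t r
    have h2 := fam_left (θ := θ) (u := u) n z t r
    have h3 := fam_right h n z t r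
    rw [hcomm, h3] at h2
    rw [Fintype.sum_sum_type, ← h2, neg_add_cancel]
  have h4 : Sp H (fam n z) := key h _ Finset.univ rfl (fam_nat n z)
    (fun W t t' r ht => by rw [show t = t' from funext fun i => ht i (Finset.mem_univ i)])
    (fam_ht n hz) h1
  have h5 := h4.aj
  rwa [fam_univ] at h5

end curve

/-! ### Nilpotence of the span -/

section span

variable {I : Type x} {o : I → 𝒱.Obj}

lemma Kill.smul {J : Fam C o} {n : ℕ} {i : I} {h : C.A ((o i).prod Z)} (a : Kill C J n h)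
    (q : ℚ) : Kill C J n (q • h) := by
  have h1 : q • h = C.comp h (q • dg C Z) := by
    rw [Y152.AS.comp_smul_right, comp_dg]
  rw [h1]
  exact a.right _

variable (H) in
/-- The family of the spans. -/
def ajF (P : 𝒱.Obj) (o : I → 𝒱.Obj) : Fam C (fun i => P.prod (o i)) :=
  fun i j => {z | z ∈ AJ H P (o i) (o j)}

lemma kill_tens {P : 𝒱.Obj} {n : ℕ} {i : I} {h : C.A ((o i).prod Z)}
    (hh : Kill C (homF H o) n h) (a : C.A (P.prod T)) :
    Kill C (ajF H P o) n (i := i) (tens C a h) := by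
  induction n generalizing i a with
  | zero =>
    have h0 : h = 0 := hh
    rw [h0, tens_zero_right]
    exact Kill.zero 0
  | succ n ih =>
    intro j g hg
    have hg' : g ∈ AJ H P (o j) (o i) := hg
    induction hg' using Submodule.span_induction with
    | mem x hx =>
      obtain ⟨b, η, hη, rfl⟩ := hx
      rw [tens_comp C (ch_comm C)]
      exact ih (hh j η hη) _
    | zero => rw [zero_comp]; exact Kill.zero n
    | add x y hx hy ihx ihy => rw [add_comp]; exact (ihx hx).add (ihy hy)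
    | smul q x hx ihx => rw [Y152.AS.comp_smul_left]; exact (ihx hx).smul q

lemma nilp_aj (P : 𝒱.Obj) {n : ℕ} (hn : Nilp C (homF H o) n) : Nilp C (ajF H P o) n := by
  intro i
  change Kill C (ajF H P o) n (i := i) (dg C (P.prod (o i)))
  rw [← tens_dg C]
  exact kill_tens (hn i) _

end span

end Pool.Agent.K1H14.BB
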