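import Pool.Agent.K1H14.BB.Int

/-!
# Natural families of classes
-/

open CategoryTheory AlgebraicGeometry

universe u v w x

namespace Pool.Agent.K1H14.BB

open Pool.Agent.H914 Pool.Agent.H914.VarClass Pool.Agent.H914.VarClass.Obj Pool.Agent.W492.BB
  Pool.Agent.W550.Corr Pool.Agent.TH133 Pool.Agent.Y152.AS Pool.Agent.R904.CM
open Pool.Agent.TH829.Kim (base_pull)
open Function (update update_self update_of_ne)

set_option linter.unusedSectionVars false

variable {k : Type u} [Field k] {𝒱 : VarClass k} {ι : Type} [DecidableEq ι]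

/-- Families of classes depending on points of `E` and a point of `R`. -/
abbrev FamT (C : TheoryData.{u, v, 0} 𝒱 ℚ) (ι : Type) (E R : 𝒱.Obj) : Type _ :=
  ∀ W : 𝒱.Obj, (ι → (W ⟶ E)) → (W ⟶ R) → C.A W

variable {C : TheoryData.{u, v, 0} 𝒱 ℚ} {E R W V : 𝒱.Obj}

/-- Adding a new variable in place of the variable `i`. -/
noncomputable def nv (t : ι → (W ⟶ E)) (i : ι) : ι → (W.prod E ⟶ E) :=
  update (fun j => fst W E ≫ t j) i (snd W E)

lemma nv_self (t : ι → (W ⟶ E)) (i : ι) : nv t i i = snd W E := update_self _ _ _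

lemma nv_ne (t : ι → (W ⟶ E)) {i j : ι} (h : j ≠ i) : nv t i j = fst W E ≫ t j :=
  update_of_ne h _ _

lemma nv_update_self (t : ι → (W ⟶ E)) (i : ι) (x : W ⟶ E) : nv (update t i x) i = nv t i := by
  funext j
  by_cases h : j = i
  · subst h
    rw [nv_self, nv_self]
  · rw [nv_ne _ h, nv_ne _ h, update_of_ne h]

lemma nv_update_ne (t : ι → (W ⟶ E)) {i j : ι} (h : j ≠ i) (x : W ⟶ E) :
    nv (update t j x) i = update (nv t i) j (fst W E ≫ x) := by
  funext l
  by_cases h1 : l = i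
  · subst h1
    rw [nv_self, update_of_ne h.symm, nv_self]
  · rw [nv_ne _ h1]
    by_cases h2 : l = j
    · subst h2
      rw [update_self, update_self]
    · rw [update_of_ne h2, update_of_ne h2, nv_ne _ h1]

lemma comp_update (f : V ⟶ W) (t : ι → (W ⟶ E)) (i : ι) (x : W ⟶ E) :
    (fun j => f ≫ update t i x j) = update (fun j => f ≫ t j) i (f ≫ x) := by
  funext j
  by_cases h : j = i
  · subst h
    rw [update_self, update_self]
  · rw [update_of_ne h, update_of_ne h]

lemma prodMap_nv (f : V ⟶ W) (t : ι → (W ⟶ E)) (i : ι) :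
    (fun j => prodMap f (𝟙 E) ≫ nv t i j) = nv (fun j => f ≫ t j) i := by
  funext j
  by_cases h : j = i
  · subst h
    rw [nv_self, nv_self]
    simp
  · rw [nv_ne _ h, nv_ne _ h, ← Category.assoc, ← Category.assoc, prodMap_fst]

lemma lift_nv (t : ι → (W ⟶ E)) (i : ι) (x : W ⟶ E) :
    (fun j => Obj.lift (𝟙 W) x ≫ nv t i j) = update t i x := by
  funext j
  by_cases h : j = i
  · subst h
    rw [nv_self, update_self, lift_snd]
  · rw [nv_ne _ h, update_of_ne h, ← Category.assoc, lift_fst, Category.id_comp]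

/-- Naturality of a family. -/
def IsNat (φ : FamT C ι E R) : Prop := ∀ (V W : 𝒱.Obj) (f : V ⟶ W) (t : ι → (W ⟶ E)) (r : W ⟶ R),
  C.pull f (φ W t r) = φ V (fun i => f ≫ t i) (f ≫ r)

/-- The family is additive in the variable `i`. -/
def IsAdd [GroupLaw E] (φ : FamT C ι E R) (i : ι) : Prop :=
  ∀ (W : 𝒱.Obj) (t : ι → (W ⟶ E)) (r : W ⟶ R) (x y : W ⟶ E),
    φ W (update t i (x + y)) r = φ W (update t i x) r + φ W (update t i y) r

/-- The family depends only on the variables in `S`. -/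
def Supp (φ : FamT C ι E R) (S : Finset ι) : Prop :=
  ∀ (W : 𝒱.Obj) (t t' : ι → (W ⟶ E)) (r : W ⟶ R), (∀ i ∈ S, t i = t' i) → φ W t r = φ W t' r

/-- Integration over the variable `i`. -/
noncomputable def II (φ : FamT C ι E R) (i : ι) : FamT C ι E R := fun W t r =>
  C.push (fst W E) (φ (W.prod E) (nv t i) (fst W E ≫ r))

/-- The value at the origin. -/
def ZZ [GroupLaw E] (φ : FamT C ι E R) (i : ι) : FamT C ι E R := fun W t r =>
  φ W (update t i 0) r

/-- The additive part. -/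
noncomputable def AP [GroupLaw E] (θ : C.A E) (φ : FamT C ι E R) (i : ι) : FamT C ι E R :=
  fun W t r => -C.push (fst W E) (bC θ (fst W E ≫ t i) (snd W E) *
    φ (W.prod E) (nv t i) (fst W E ≫ r))

/-- The operator given by the endomorphism `u`. -/
noncomputable def UU [GroupLaw E] (θ : C.A E) (u : E ⟶ E) (φ : FamT C ι E R) (i : ι) :
    FamT C ι E R := fun W t r => AP θ φ i W (update t i (t i ≫ u)) r

section

variable [hC : IsChowProj C]

include hC

lemma push_nat (f : V ⟶ W) (κ : C.A (W.prod E)) :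
    C.pull f (C.push (fst W E) κ) = C.push (fst V E) (C.pull (prodMap f (𝟙 E)) κ) :=
  base_pull f κ

lemma pull_nv {φ : FamT C ι E R} (hφ : IsNat φ) (f : V ⟶ W) (t : ι → (W ⟶ E)) (i : ι)
    (r : W ⟶ R) : C.pull (prodMap f (𝟙 E)) (φ (W.prod E) (nv t i) (fst W E ≫ r)) =
      φ (V.prod E) (nv (fun j => f ≫ t j) i) (fst V E ≫ f ≫ r) := by
  rw [hφ, prodMap_nv, ← Category.assoc, prodMap_fst, Category.assoc]

lemma IsNat.iI {φ : FamT C ι E R} (hφ : IsNat φ) (i : ι) : IsNat (II φ i) := by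
  intro V W f t r
  rw [II, push_nat, pull_nv hφ]
  rfl

variable [GroupLaw E] {θ : C.A E} {u : E ⟶ E}

lemma IsNat.zZ {φ : FamT C ι E R} (hφ : IsNat φ) (i : ι) : IsNat (ZZ φ i) := by
  intro V W f t r
  rw [ZZ, hφ, comp_update, comp_zero']
  rfl

lemma IsNat.aP {φ : FamT C ι E R} (hφ : IsNat φ) (i : ι) : IsNat (AP θ φ i) := by
  intro V W f t r
  rw [AP, map_neg, push_nat, map_mul, pull_nv hφ, pull_bC, ← Category.assoc, prodMap_fst,
    prodMap_snd, Category.comp_id, Category.assoc]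
  rfl

lemma IsNat.uU {φ : FamT C ι E R} (hφ : IsNat φ) (i : ι) : IsNat (UU θ u φ i) := by
  intro V W f t r
  rw [UU, hφ.aP i, comp_update]
  simp only [UU, Category.assoc]

/-- The three parts of a family. -/
lemma three_fam (hp : Point1 θ) (hc : Cube θ) {φ : FamT C ι E R} (hφ : IsNat φ) (i : ι)
    (t : ι → (W ⟶ E)) (r : W ⟶ R) :
    φ W t r = ZZ φ i W t r + eC θ (t i) * II φ i W t r + AP θ φ i W t r := by
  have h0 : ∀ x : W ⟶ E, φ W (update t i x) r =
      C.pull (Obj.lift (𝟙 W) x) (φ (W.prod E) (nv t i) (fst W E ≫ r)) := by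
    intro x
    rw [hφ, lift_nv, ← Category.assoc, lift_fst, Category.id_comp]
  have h1 := h0 (t i)
  rw [Function.update_eq_self, three hp hc, three_zero hp hc, ← h0] at h1
  rw [h1, sub_eq_add_neg]
  rfl

lemma isAdd_AP (hc : Cube θ) (φ : FamT C ι E R) (i : ι) : IsAdd (AP θ φ i) i := by
  intro W t r x y
  simp only [AP, nv_update_self, update_self]
  rw [comp_add', bC_add_left hc, add_mul, map_add, neg_add]

lemma IsAdd.zero {φ : FamT C ι E R} {i : ι} (h : IsAdd φ i) (t : ι → (W ⟶ E)) (r : W ⟶ R) :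
    φ W (update t i 0) r = 0 := by
  have := h W t r 0 0
  rw [add_zero] at this
  exact left_eq_add.1 this

lemma IsAdd.neg {φ : FamT C ι E R} {i : ι} (h : IsAdd φ i) (t : ι → (W ⟶ E)) (r : W ⟶ R)
    (x : W ⟶ E) : φ W (update t i (-x)) r = -φ W (update t i x) r := by
  have := h W t r x (-x)
  rw [add_neg_cancel, h.zero] at this
  exact (neg_eq_of_add_eq_zero_right this.symm).symm

/-- The family as a homomorphism in the variable `i`. -/
noncomputable def IsAdd.hom {φ : FamT C ι E R} {i : ι} (h : IsAdd φ i) (t : ι → (W ⟶ E))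
    (r : W ⟶ R) : (W ⟶ E) →+ C.A W :=
  AddMonoidHom.mk' (fun x => φ W (update t i x) r) (fun x y => h W t r x y)

lemma IsAdd.zsmul {φ : FamT C ι E R} {i : ι} (h : IsAdd φ i) (t : ι → (W ⟶ E)) (r : W ⟶ R)
    (n : ℤ) (x : W ⟶ E) : φ W (update t i (n • x)) r = n • φ W (update t i x) r :=
  map_zsmul (h.hom t r) n x

lemma Supp.update {φ : FamT C ι E R} {S : Finset ι} (h : Supp φ S) {i : ι} (hi : i ∉ S)
    (t : ι → (W ⟶ E)) (r : W ⟶ R) (x : W ⟶ E) : φ W (update t i x) r = φ W t r := by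
  refine h W _ _ r fun j hj => ?_
  rw [update_of_ne]
  rintro rfl
  exact hi hj

lemma Supp.iI {φ : FamT C ι E R} {S : Finset ι} (h : Supp φ S) (i : ι) :
    Supp (II φ i) (S.erase i) := by
  intro W t t' r ht
  rw [II, II]
  congr 1
  refine h _ _ _ _ fun j hj => ?_
  by_cases hji : j = i
  · subst hji
    rw [nv_self, nv_self]
  · rw [nv_ne _ hji, nv_ne _ hji, ht j (Finset.mem_erase.2 ⟨hji, hj⟩)]

lemma Supp.zZ {φ : FamT C ι E R} {S : Finset ι} (h : Supp φ S) (i : ι) :
    Supp (ZZ φ i) (S.erase i) := by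
  intro W t t' r ht
  rw [ZZ, ZZ]
  refine h _ _ _ _ fun j hj => ?_
  by_cases hji : j = i
  · subst hji
    rw [update_self, update_self]
  · rw [update_of_ne hji, update_of_ne hji, ht j (Finset.mem_erase.2 ⟨hji, hj⟩)]

lemma Supp.aP {φ : FamT C ι E R} {S : Finset ι} (h : Supp φ S) {i : ι} (hi : i ∈ S) :
    Supp (AP θ φ i) S := by
  intro W t t' r ht
  have h1 : φ (W.prod E) (nv t i) (fst W E ≫ r) = φ (W.prod E) (nv t' i) (fst W E ≫ r) := by
    refine h _ _ _ _ fun j hj => ?_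
    by_cases hji : j = i
    · subst hji
      rw [nv_self, nv_self]
    · rw [nv_ne _ hji, nv_ne _ hji, ht j hj]
  rw [AP, AP, h1, ht i hi]

lemma IsAdd.iI {φ : FamT C ι E R} {i j : ι} (h : IsAdd φ j) (hij : j ≠ i) :
    IsAdd (II φ i) j := by
  intro W t r x y
  simp only [II]
  rw [nv_update_ne _ hij, nv_update_ne _ hij, nv_update_ne _ hij, comp_add', h, map_add]

lemma IsAdd.zZ {φ : FamT C ι E R} {i j : ι} (h : IsAdd φ j) (hij : j ≠ i) :
    IsAdd (ZZ φ i) j := by
  intro W t r x y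
  simp only [ZZ]
  rw [Function.update_comm hij, Function.update_comm hij, Function.update_comm hij, h]

lemma IsAdd.aP {φ : FamT C ι E R} {i j : ι} (h : IsAdd φ j) (hij : j ≠ i) :
    IsAdd (AP θ φ i) j := by
  intro W t r x y
  simp only [AP]
  rw [nv_update_ne _ hij, nv_update_ne _ hij, nv_update_ne _ hij, comp_add', h, mul_add, map_add,
    neg_add, update_of_ne hij.symm, update_of_ne hij.symm, update_of_ne hij.symm]

end

end Pool.Agent.K1H14.BB
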