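import Pool.Agent.K1H14.BB.NF

/-!
# Natural families of classes: the operators commute
-/

open CategoryTheory AlgebraicGeometry

universe u v w x

namespace Pool.Agent.K1H14.BB

open Pool.Agent.H914 Pool.Agent.H914.VarClass Pool.Agent.H914.VarClass.Obj Pool.Agent.W492.BB
  Pool.Agent.W550.Corr Pool.Agent.TH133 Pool.Agent.Y152.AS Pool.Agent.R904.CM
open Pool.Agent.TH829.Kim (base_pull)
open Pool.Agent.R904.Voi (vl pull_vl vl_univ vl_mem vl_add vl_sub vl_smul vl_pull vl_fst vl_snd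
  vl_tp vl_comp vl_sum)
open Function (update update_self update_of_ne)

set_option linter.unusedSectionVars false

variable {k : Type u} [Field k] {𝒱 : VarClass k} {ι : Type} [DecidableEq ι]
  {C : TheoryData.{u, v, 0} 𝒱 ℚ} [hC : IsChowProj C] {E R W V : 𝒱.Obj}

/-- Integration against a kernel in the variable `i`. -/
noncomputable def KK (a : C.A (E.prod E)) (φ : FamT C ι E R) (i : ι) : FamT C ι E R :=
  fun W t r => C.push (fst W E) (vl C a (fst W E ≫ t i) (snd W E) *
    φ (W.prod E) (nv t i) (fst W E ≫ r))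

lemma KK_comm (a b : C.A (E.prod E)) {φ : FamT C ι E R} (hφ : IsNat φ) {i j : ι} (hij : i ≠ j) :
    KK a (KK b φ j) i = KK b (KK a φ i) j := by
  funext W t r
  simp only [KK]
  rw [← int_pull, ← int_pull, int_swap]
  congr 2
  rw [map_mul, map_mul, hφ, pull_vl, pull_vl, pull_vl, pull_vl]
  have e1 : (fun l => Obj.lift (Obj.lift (fst (W.prod E) E ≫ fst W E) (snd (W.prod E) E))
      (fst (W.prod E) E ≫ snd W E) ≫ nv (nv t i) j l) = nv (nv t j) i := by
    funext l
    by_cases h1 : l = j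
    · subst h1
      rw [nv_self, nv_ne _ hij.symm, nv_self, lift_snd]
    · rw [nv_ne _ h1]
      by_cases h2 : l = i
      · subst h2
        rw [nv_self, nv_self, ← Category.assoc, lift_fst, lift_snd]
      · rw [nv_ne _ h2, nv_ne _ h2, nv_ne _ h1, ← Category.assoc, lift_fst, ← Category.assoc,
          lift_fst, Category.assoc]
  rw [e1, nv_ne _ hij.symm, nv_ne _ hij]
  simp only [← Category.assoc, lift_fst, lift_snd]
  rw [← mul_assoc, ← mul_assoc, ch_comm C (vl C a _ _)]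

lemma KK_zero (a : C.A (E.prod E)) (i : ι) :
    KK a (fun _ _ _ => 0 : FamT C ι E R) i = fun _ _ _ => 0 := by
  funext W t r
  rw [KK, mul_zero, map_zero]

lemma KK_sum {κ : Type*} (s : Finset κ) (a : C.A (E.prod E)) (φ : κ → FamT C ι E R) (i : ι) :
    KK a (fun W t r => ∑ l ∈ s, φ l W t r) i = fun W t r => ∑ l ∈ s, KK a (φ l) i W t r := by
  funext W t r
  simp only [KK]
  rw [Finset.mul_sum, map_sum]

variable [GroupLaw E] {θ : C.A E} {u : E ⟶ E}

lemma II_eq (φ : FamT C ι E R) (i : ι) : II φ i = KK 1 φ i := by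
  funext W t r
  rw [II, KK, vl, map_one, one_mul]

lemma AP_eq (φ : FamT C ι E R) (i : ι) : AP θ φ i = KK (-bC θ (fst E E) (snd E E)) φ i := by
  funext W t r
  rw [AP, KK, vl, map_neg, pull_bC, lift_fst, lift_snd, neg_mul, map_neg]

lemma UU_eq (φ : FamT C ι E R) (i : ι) :
    UU θ u φ i = KK (-bC θ (fst E E ≫ u) (snd E E)) φ i := by
  funext W t r
  rw [UU, AP, KK, vl, map_neg, pull_bC, ← Category.assoc, lift_fst, lift_snd, neg_mul, map_neg,
    nv_update_self, update_self, Category.assoc]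

section point

variable (hp : Point1 θ) (hc : Cube θ)
include hp hc

lemma int_theta (W : 𝒱.Obj) :
    C.push (fst W E) (eC θ (snd W E)) = 1 := by
  have h2 := three_zero hp hc (1 : C.A (W.prod E))
  rwa [mul_one, map_one] at h2

/-- The integral of an additive family vanishes. -/
lemma IsAdd.int_zero (hd : 0 < E.dim) {φ : FamT C ι E R} (hφ : IsNat φ) {i : ι} (h : IsAdd φ i)
    (t : ι → (W ⟶ E)) (r : W ⟶ R) : II φ i W t r = 0 := by
  have h1 : ∀ {W : 𝒱.Obj} (t : ι → (W ⟶ E)) (r : W ⟶ R) (x : W ⟶ E),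
      eC θ x * II φ i W t r = 0 := by
    intro W t r x
    have e1 : ∀ x : W ⟶ E, φ W (update t i x) r = eC θ x * II φ i W t r +
        AP θ φ i W (update t i x) r := by
      intro x
      have := three_fam hp hc hφ i (update t i x) r
      rw [ZZ, Function.update_idem, h.zero, zero_add, update_self] at this
      rw [this]
      congr 2
      rw [II, II, nv_update_self]
    have e2 := e1 ((2 : ℤ) • x)
    rw [h.zsmul, (isAdd_AP hc φ i).zsmul, e1 x, eC_zsmul hc] at e2
    have e3 : (2 : ℤ) • (eC θ x * II φ i W t r) = 0 := by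
      rw [smul_mul_assoc] at e2
      have e4 : ((2 ^ 2 : ℤ)) • (eC θ x * II φ i W t r) =
        (2 : ℤ) • (eC θ x * II φ i W t r) + (2 : ℤ) • (eC θ x * II φ i W t r) := by
        rw [← add_smul]; norm_num
      rw [e4, smul_add] at e2
      generalize (2 : ℤ) • (eC θ x * II φ i W t r) = A at *
      generalize (2 : ℤ) • AP θ φ i W (update t i x) r = B at *
      have e5 : A + A + B = A + B + A := by abel
      rw [e5] at e2
      exact left_eq_add.1 e2
    have e5 : (2 : ℚ) • (eC θ x * II φ i W t r) = 0 := by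
      rw [← e3, ← Int.cast_smul_eq_zsmul ℚ]
      norm_num
    exact (smul_eq_zero.1 e5).resolve_left (by norm_num)
  have h2 := h1 (fun j => fst W E ≫ t j) (fst W E ≫ r) (snd W E)
  rw [← hφ.iI i, ch_comm C] at h2
  have h3 := congrArg (C.push (fst W E)) h2
  rw [int_pull, int_theta hp hc, mul_one, map_zero] at h3
  exact h3

/-- The additive part of an additive family. -/
lemma IsAdd.AP_eq (hd : 0 < E.dim) {φ : FamT C ι E R} (hφ : IsNat φ) {i : ι} (h : IsAdd φ i) :
    AP θ φ i = φ := by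
  funext W t r
  have := three_fam hp hc hφ i t r
  rw [ZZ, h.zero, h.int_zero hp hc hd hφ, mul_zero, zero_add, zero_add] at this
  exact this.symm

lemma IsAdd.uU_eq (hd : 0 < E.dim) {φ : FamT C ι E R} (hφ : IsNat φ) {i : ι} (h : IsAdd φ i) :
    UU θ u φ i = fun W t r => φ W (update t i (t i ≫ u)) r := by
  funext W t r
  rw [UU, h.AP_eq hp hc hd hφ]

lemma AP_AP (hd : 0 < E.dim) {φ : FamT C ι E R} (hφ : IsNat φ) (i : ι) :
    AP θ (AP θ φ i) i = AP θ φ i :=
  (isAdd_AP hc φ i).AP_eq hp hc hd (hφ.aP i)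

end point

lemma isAdd_UU (hc : Cube θ) (hu : ∀ {X : 𝒱.Obj} (x y : X ⟶ E), (x + y) ≫ u = x ≫ u + y ≫ u)
    (φ : FamT C ι E R) (i : ι) : IsAdd (UU θ u φ i) i := by
  intro W t r x y
  simp only [UU, update_self, Function.update_idem]
  rw [hu, isAdd_AP hc]

/-- The relation `∑ U_j φ = 0`. -/
def DD (θ : C.A E) (u : E ⟶ E) (S : Finset ι) (φ : FamT C ι E R) : Prop :=
  ∀ (W : 𝒱.Obj) (t : ι → (W ⟶ E)) (r : W ⟶ R), ∑ j ∈ S, UU θ u φ j W t r = 0

section point

variable (hp : Point1 θ) (hc : Cube θ)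
  (hu : ∀ {X : 𝒱.Obj} (x y : X ⟶ E), (x + y) ≫ u = x ≫ u + y ≫ u)
include hp hc hu

lemma UU_AP (hd : 0 < E.dim) {φ : FamT C ι E R} (hφ : IsNat φ) (i j : ι) :
    UU θ u (AP θ φ i) j = AP θ (UU θ u φ j) i := by
  by_cases hij : i = j
  · subst hij
    rw [(isAdd_UU hc hu φ i).AP_eq hp hc hd (hφ.uU i)]
    funext W t r
    rw [UU, AP_AP hp hc hd hφ]
    rfl
  · rw [UU_eq, UU_eq, BB.AP_eq, BB.AP_eq, KK_comm _ _ hφ hij]

omit hu in
lemma UU_II {φ : FamT C ι E R} (hφ : IsNat φ) {i j : ι} (hij : i ≠ j) :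
    UU θ u (II φ i) j = II (UU θ u φ j) i := by
  rw [UU_eq, UU_eq, II_eq, II_eq, KK_comm _ _ hφ hij]

omit hp hc hu in
lemma UU_ZZ {φ : FamT C ι E R} {i j : ι} (hij : j ≠ i) :
    UU θ u (ZZ φ i) j = ZZ (UU θ u φ j) i := by
  funext W t r
  simp only [UU, ZZ, AP]
  rw [nv_update_self, update_self, nv_update_self, update_self, nv_update_ne _ hij.symm,
    comp_zero', update_of_ne hij]

lemma DD.aP (hd : 0 < E.dim) {S : Finset ι} {φ : FamT C ι E R} (hφ : IsNat φ) (h : DD θ u S φ)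
    (i : ι) : DD θ u S (AP θ φ i) := by
  have h1 : (fun W t r => ∑ j ∈ S, UU θ u (AP θ φ i) j W t r) =
      KK (-bC θ (fst E E) (snd E E)) (fun W t r => ∑ j ∈ S, UU θ u φ j W t r) i := by
    rw [KK_sum]
    funext W t r
    refine Finset.sum_congr rfl fun j _ => ?_
    rw [UU_AP hp hc hu hd hφ, BB.AP_eq]
  have h2 : (fun W t r => ∑ j ∈ S, UU θ u φ j W t r) = fun _ _ _ => 0 := by
    funext W t r
    exact h W t r
  rw [h2, KK_zero] at h1
  intro W t r
  exact congrFun (congrFun (congrFun h1 W) t) r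

lemma DD.iI (hd : 0 < E.dim) {S : Finset ι} {φ : FamT C ι E R} (hφ : IsNat φ) (h : DD θ u S φ)
    {i : ι} (hi : i ∈ S) : DD θ u (S.erase i) (II φ i) := by
  intro W t r
  have h1 : ∑ j ∈ S.erase i, UU θ u (II φ i) j W t r =
      ∑ j ∈ S.erase i, II (UU θ u φ j) i W t r := by
    refine Finset.sum_congr rfl fun j hj => ?_
    rw [UU_II hp hc hφ (Finset.ne_of_mem_erase hj).symm]
  have h2 : II (UU θ u φ i) i W t r = 0 :=
    (isAdd_UU hc hu φ i).int_zero hp hc hd (hφ.uU i) t r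
  have h3 := Finset.add_sum_erase S (fun j => II (UU θ u φ j) i W t r) hi
  have h4 : ∑ j ∈ S, II (UU θ u φ j) i W t r = 0 := by
    simp only [II]
    rw [← map_sum, h, map_zero]
  simp only [h2, zero_add, h4] at h3
  rw [h1, h3]

lemma DD.zZ {S : Finset ι} {φ : FamT C ι E R} (hφ : IsNat φ) (h : DD θ u S φ)
    {i : ι} (hi : i ∈ S) : DD θ u (S.erase i) (ZZ φ i) := by
  intro W t r
  have h1 : ∑ j ∈ S.erase i, UU θ u (ZZ φ i) j W t r =
      ∑ j ∈ S.erase i, ZZ (UU θ u φ j) i W t r := by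
    refine Finset.sum_congr rfl fun j hj => ?_
    rw [UU_ZZ (Finset.ne_of_mem_erase hj)]
  have h2 : ZZ (UU θ u φ i) i W t r = 0 := (isAdd_UU hc hu φ i).zero t r
  have h3 := Finset.add_sum_erase S (fun j => ZZ (UU θ u φ j) i W t r) hi
  have h4 : ∑ j ∈ S, ZZ (UU θ u φ j) i W t r = 0 := h W _ r
  simp only [h2, zero_add, h4] at h3
  rw [h1, h3]

end point

end Pool.Agent.K1H14.BB
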