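import Pool.Agent.K1H14.BB.Link
import Pool.Agent.TH133.Ext

/-!
# The algebraic relation for the sum of the complex multiplications
-/

open CategoryTheory AlgebraicGeometry Polynomial

universe u v w x

namespace Pool.Agent.K1H14.BB

open Pool.Agent.H914 Pool.Agent.H914.VarClass Pool.Agent.H914.VarClass.Obj Pool.Agent.W492.BB
  Pool.Agent.W550.Corr Pool.Agent.TH133 Pool.Agent.Y152.AS Pool.Agent.R904.CM
open Pool.Agent.TH829.Kim (base_pull)
open Pool.Agent.R904.Voi (vl pull_vl vl_univ vl_mem vl_add vl_sub vl_smul vl_pull vl_fst vl_snd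
  vl_tp vl_comp vl_sum ext_vl)
open Function (update update_self update_of_ne)

set_option linter.unusedSectionVars false

variable {k : Type u} [Field k] {𝒱 : VarClass k} {C : TheoryData.{u, v, 0} 𝒱 ℚ}
  [hC : IsChowProj C] {E W V X X' Y Y' Z T : 𝒱.Obj} [GroupLaw E] {θ : C.A E} {u : E ⟶ E} {d : ℕ}

section cor

/-- A self-correspondence as an element of the ring of self-correspondences. -/
def tc (a : C.A (X.prod X)) : Cor C X := a

lemma tc_mul (a b : C.A (X.prod X)) : tc a * tc b = tc (C.comp b a) := rfl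
lemma tc_add (a b : C.A (X.prod X)) : tc (a + b) = tc a + tc b := rfl
lemma tc_neg (a : C.A (X.prod X)) : tc (-a) = -tc a := rfl
lemma tc_smul (q : ℚ) (a : C.A (X.prod X)) : tc (q • a) = q • tc a := rfl
lemma tc_zero : tc (0 : C.A (X.prod X)) = 0 := rfl
lemma tc_dg : tc (dg C X) = 1 := rfl
lemma tc_inj {a b : C.A (X.prod X)} (h : tc a = tc b) : a = b := h

/-- `P ↦ P ⊗ id` as a linear map. -/
noncomputable def tLl (C : TheoryData.{u, v, 0} 𝒱 ℚ) [hC : IsChowProj C] (X Y : 𝒱.Obj) :
    Cor C X →ₗ[ℚ] Cor C (X.prod Y) where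
  toFun a := tc (tens C (X := X) (Y := X) a (dg C Y))
  map_add' a b := congrArg (fun f => f (dg C Y))
    (map_add (tensL (C := C) (X := X) (Y := X) (Z := Y) (W := Y)) a b)
  map_smul' q a := congrArg (fun f => f (dg C Y))
    (map_smul (tensL (C := C) (X := X) (Y := X) (Z := Y) (W := Y)) q a)

/-- `P ↦ id ⊗ P` as a linear map. -/
noncomputable def tRl (C : TheoryData.{u, v, 0} 𝒱 ℚ) [hC : IsChowProj C] (X Y : 𝒱.Obj) :
    Cor C Y →ₗ[ℚ] Cor C (X.prod Y) where
  toFun a := tc (tens C (Z := Y) (W := Y) (dg C X) a)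
  map_add' a b := map_add (tensL (C := C) (X := X) (Y := X) (Z := Y) (W := Y) (dg C X)) a b
  map_smul' q a := map_smul (tensL (C := C) (X := X) (Y := X) (Z := Y) (W := Y) (dg C X)) q a

/-- `P ↦ P ⊗ id` as a homomorphism of algebras. -/
noncomputable def tL (C : TheoryData.{u, v, 0} 𝒱 ℚ) [hC : IsChowProj C] (X Y : 𝒱.Obj) :
    Cor C X →ₐ[ℚ] Cor C (X.prod Y) :=
  AlgHom.ofLinearMap (tLl C X Y) (tens_dg C X Y) (fun a b => by
    have h := tens_comp' (C := C) (X := X) (Z := Y) b a (dg C Y) (dg C Y)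
    rw [dg_comp] at h
    exact h.symm)

/-- `P ↦ id ⊗ P` as a homomorphism of algebras. -/
noncomputable def tR (C : TheoryData.{u, v, 0} 𝒱 ℚ) [hC : IsChowProj C] (X Y : 𝒱.Obj) :
    Cor C Y →ₐ[ℚ] Cor C (X.prod Y) :=
  AlgHom.ofLinearMap (tRl C X Y) (tens_dg C X Y) (fun a b => by
    have h := tens_comp' (C := C) (X := X) (Z := Y) (dg C X) (dg C X) b a
    rw [dg_comp] at h
    exact h.symm)

lemma tL_apply (a : C.A (X.prod X)) : tL C X Y (tc a) = tc (tens C a (dg C Y)) := rfl
lemma tR_apply (a : C.A (Y.prod Y)) : tR C X Y (tc a) = tc (tens C (dg C X) a) := rfl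

end cor

lemma tp_uE (h : Setup θ u d) : tp C (uE C θ u) = -uE C θ u := by
  apply ext_vl
  intro W x y
  have e : vl C (-uE C θ u) x y = -vl C (uE C θ u) x y := map_neg _ _
  rw [vl_tp, e, vl_uE, vl_uE, h.bC_u, neg_neg, neg_neg, bC_comm]

lemma tp_uP (h : Setup θ u d) (n : ℕ) : tp C (uP C θ u n) = -uP C θ u n := by
  induction n with
  | zero => exact tp_uE (E := E) h
  | succ n ih =>
    have h1 : tp C (tens C (uE C θ u) (dg C (pw E n)) + tens C (dg C E) (uP C θ u n)) =
        -(tens C (uE C θ u) (dg C (pw E n)) + tens C (dg C E) (uP C θ u n)) := by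
      rw [tp_add, tp_tens, tp_tens, tp_uE h, ih, tp_dg, tp_dg]
      have e1 : tens C (-uE C θ u) (dg C (pw E n)) = -tens C (uE C θ u) (dg C (pw E n)) := by
        rw [tens, tens, map_neg, neg_mul]
      have e2 : tens C (dg C E) (-uP C θ u n) = -tens C (dg C E) (uP C θ u n) := by
        rw [tens, tens, map_neg, mul_neg]
      rw [e1, e2, neg_add]
    exact h1

/-- The action of `h^1(E)` on the bilinear class. -/
lemma int_bb (h : Setup θ u d) (x z : W ⟶ E) :
    C.push (fst W E) (bC θ (fst W E ≫ x) (snd W E) * bC θ (snd W E) (fst W E ≫ z)) =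
      -bC θ x z := by
  have h1 := three h.point h.cube (bC θ (snd W E) (fst W E ≫ z)) x
  have h2 := three_zero h.point h.cube (bC θ (snd W E) (fst W E ≫ z))
  have h3 := int_bC h.point h.cube (by rw [h.dim_eq]; norm_num) z
  rw [bC_comm] at h3
  rw [h2, h3, mul_zero, add_zero, pull_bC, pull_bC, lift_snd, lift_snd, ← Category.assoc,
    lift_fst, Category.id_comp, bC_zero_left h.cube, zero_sub] at h1
  rw [h1, neg_neg]

lemma uE_sq (h : Setup θ u d) : C.comp (uE C θ u) (uE C θ u) =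
    (d : ℚ) • bC θ (fst E E) (snd E E) := by
  apply ext_vl
  intro W x z
  have e : vl C ((d : ℚ) • bC θ (fst E E) (snd E E)) x z = (d : ℚ) • bC θ x z := by
    rw [vl, map_smul, pull_bC, lift_fst, lift_snd]
  rw [vl_comp, e, vl_uE, vl_uE, h.bC_u (snd W E), neg_neg, neg_mul, map_neg, Category.assoc,
    Category.assoc, int_bb h, neg_neg, h.bC_uu]

lemma uE_cube (h : Setup θ u d) : C.comp (uE C θ u) (C.comp (uE C θ u) (uE C θ u)) =
    -((d : ℚ) • uE C θ u) := by
  rw [uE_sq h, comp_smul_right]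
  have h1 : C.comp (uE C θ u) (bC θ (fst E E) (snd E E)) = -uE C θ u := by
    apply ext_vl
    intro W x z
    have e : vl C (-uE C θ u) x z = -vl C (uE C θ u) x z := map_neg _ _
    rw [vl_comp, e, vl_uE, vl_uE, vl, pull_bC, lift_fst, lift_snd, neg_mul, map_neg,
      Category.assoc, int_bb h]
  rw [h1, smul_neg]

lemma tc_cube (h : Setup θ u d) : tc (uE C θ u) ^ 3 = -((d : ℚ) • tc (uE C θ u)) := by
  rw [pow_succ, pow_two, mul_assoc, tc_mul, tc_mul, W550.Corr.comp_assoc, uE_cube h, tc_neg, tc_smul]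

/-- The relation for the sum of the complex multiplications. -/
lemma uP_rel (h : Setup θ u d) (n : ℕ) :
    aeval (tc (uP C θ u n)) (fP (d : ℚ) (n + 1)) = 0 := by
  induction n with
  | zero =>
    have h2 : aeval (tc (uE C θ u)) (fP (d : ℚ) (0 + 1)) = 0 := by
      rw [fP, Finset.prod_range_succ, Finset.prod_range_zero, one_mul, map_mul, aeval_X, map_add,
        map_pow, aeval_X, aeval_C, mul_add, ← pow_succ', tc_cube h, ← Algebra.commutes,
        ← Algebra.smul_def]
      simp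
    exact h2
  | succ n ih =>
    have h2 : tL C E (pw E n) (tc (uE C θ u)) * tR C E (pw E n) (tc (uP C θ u n)) =
        tR C E (pw E n) (tc (uP C θ u n)) * tL C E (pw E n) (tc (uE C θ u)) := by
      rw [tL_apply, tR_apply, tc_mul, tc_mul]
      congr 1
      have e1 := tens_comp C (ch_comm C) (dg C E) (uP C θ u n) (uE C θ u) (dg C (pw E n))
      have e2 := tens_comp C (ch_comm C) (uE C θ u) (dg C (pw E n)) (dg C E) (uP C θ u n)
      rw [dg_comp, comp_dg] at e1 e2
      rw [e1, e2]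
    have h3 : (tL C E (pw E n) (tc (uE C θ u))) ^ 3 =
        -((d : ℚ) • tL C E (pw E n) (tc (uE C θ u))) := by
      rw [← map_pow, tc_cube h, map_neg, map_smul]
    have h4 : aeval (tR C E (pw E n) (tc (uP C θ u n))) (fP (d : ℚ) (n + 1)) = 0 := by
      rw [aeval_algHom_apply, ih, map_zero]
    exact fP_add h.ne h2 h3 (n + 1) h4

end Pool.Agent.K1H14.BB
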