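import Pool.Agent.K1H14.BB.Main

/-!
# The index of nilpotence of products with powers of an elliptic curve
-/

open CategoryTheory AlgebraicGeometry Polynomial

universe u v w x

namespace Pool.Agent.K1H14.BB

open Pool.Agent.H914 Pool.Agent.H914.VarClass Pool.Agent.H914.VarClass.Obj Pool.Agent.W492.BB
  Pool.Agent.W550.Corr Pool.Agent.TH133 Pool.Agent.Y152.AS Pool.Agent.R904.CM

set_option linter.unusedSectionVars false

/-! ### The polynomials -/

/-- The irreducible factors of `X ∏ (X ^ 2 + c e ^ 2)`. -/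
noncomputable def gP (c : ℚ) (n : ℕ) : Fin (n + 1) → ℚ[X] :=
  Fin.cons X fun e : Fin n => X ^ 2 + Polynomial.C (c * ((e : ℚ) + 1) ^ 2)

lemma prod_gP (c : ℚ) (n : ℕ) : ∏ i, gP c n i = fP c n := by
  rw [Fin.prod_univ_succ, fP, Finset.prod_range]
  simp only [gP, Fin.cons_zero, Fin.cons_succ]

lemma coprime_X {α : ℚ} (h : α ≠ 0) : IsCoprime (X : ℚ[X]) (X ^ 2 + Polynomial.C α) := by
  refine ⟨-(Polynomial.C α⁻¹ * X), Polynomial.C α⁻¹, ?_⟩
  have h1 : Polynomial.C α⁻¹ * Polynomial.C α = (1 : ℚ[X]) := by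
    rw [← Polynomial.C_mul, inv_mul_cancel₀ h, Polynomial.C_1]
  linear_combination h1

lemma coprime_sq {α β : ℚ} (h : α ≠ β) :
    IsCoprime (X ^ 2 + Polynomial.C α : ℚ[X]) (X ^ 2 + Polynomial.C β) := by
  refine ⟨Polynomial.C (α - β)⁻¹, -Polynomial.C (α - β)⁻¹, ?_⟩
  have h1 : Polynomial.C (α - β)⁻¹ * (Polynomial.C α - Polynomial.C β) = (1 : ℚ[X]) := by
    rw [← Polynomial.C_sub, ← Polynomial.C_mul, inv_mul_cancel₀ (sub_ne_zero.2 h),
      Polynomial.C_1]
  linear_combination h1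

lemma gP_coprime {c : ℚ} (hc : 0 < c) (n : ℕ) :
    Pairwise fun i j => IsCoprime (gP c n i) (gP c n j) := by
  have h0 : ∀ e : Fin n, c * ((e : ℚ) + 1) ^ 2 ≠ 0 := fun e => by positivity
  intro i j
  refine Fin.cases ?_ (fun i => ?_) i
  · refine Fin.cases ?_ (fun j => ?_) j
    · intro h
      exact absurd rfl h
    · intro _
      simp only [gP, Fin.cons_zero, Fin.cons_succ]
      exact coprime_X (h0 j)
  · refine Fin.cases ?_ (fun j => ?_) j
    · intro _
      simp only [gP, Fin.cons_zero, Fin.cons_succ]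
      exact (coprime_X (h0 i)).symm
    · intro h
      simp only [gP, Fin.cons_succ]
      refine coprime_sq fun h1 => h ?_
      have h2 := mul_left_cancel₀ hc.ne' h1
      have h3 : ((i : ℚ) + 1) = (j : ℚ) + 1 := by
        have hi : (0 : ℚ) ≤ (i : ℚ) + 1 := by positivity
        have hj : (0 : ℚ) ≤ (j : ℚ) + 1 := by positivity
        exact (sq_eq_sq₀ hi hj).1 h2
      have h4 : ((i : ℕ) : ℚ) = ((j : ℕ) : ℚ) := add_right_cancel h3
      rw [Fin.ext (Nat.cast_injective h4)]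

variable {k : Type u} [Field k] {𝒱 : VarClass k} {C : TheoryData.{u, v, 0} 𝒱 ℚ}
  [hC : IsChowProj C] {K : Type w} [Field K] {H : WeilTheoryData.{u, v, w} C K}
  [hH : IsWeilProj H] {E W V X Y Z T : 𝒱.Obj} {I : Type x} {o : I → 𝒱.Obj}

lemma comp_neg' (a : C.A (X.prod Y)) (b : C.A (Y.prod Z)) : C.comp a (-b) = -C.comp a b :=
  map_neg (compL C a) b

lemma neg_comp' (a : C.A (X.prod Y)) (b : C.A (Y.prod Z)) : C.comp (-a) b = -C.comp a b := by
  have := congrArg (fun f => f b) (map_neg (compL C (X := X) (Y := Y) (Z := Z)) a)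
  exact this

/-- The decomposition of a correspondence into the part commuting with `D` and the part
anticommuting with `D`. -/
lemma split_pm {D : C.A (X.prod X)} {D' : C.A (Y.prod Y)} {z : C.A (X.prod Y)} {c : ℚ}
    (hc : c ≠ 0) (h1 : C.comp D (C.comp D z) = -(c • z)) (h2 : C.comp (C.comp z D') D' = -(c • z))
    (hz : H.cl z = 0) : ∃ a b : C.A (X.prod Y), (H.cl a = 0 ∧ C.comp D a = C.comp a D') ∧
      (H.cl b = 0 ∧ C.comp D b = -C.comp b D') ∧ z = a + b := by
  have e1 : C.comp D (C.comp (C.comp D z) D') = -(c • C.comp z D') := by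
    rw [← W550.Corr.comp_assoc, h1, neg_comp', Y152.AS.comp_smul_left]
  have e2 : C.comp (C.comp (C.comp D z) D') D' = -(c • C.comp D z) := by
    rw [W550.Corr.comp_assoc C D z D', W550.Corr.comp_assoc, h2, comp_neg',
      Y152.AS.comp_smul_right]
  have hcl : H.cl (C.comp (C.comp D z) D') = 0 := cl_comp_right _ (cl_comp_left _ hz)
  refine ⟨(2 : ℚ)⁻¹ • (z - c⁻¹ • C.comp (C.comp D z) D'),
    (2 : ℚ)⁻¹ • (z + c⁻¹ • C.comp (C.comp D z) D'), ⟨?_, ?_⟩, ⟨?_, ?_⟩, ?_⟩
  · refine cl_smul' _ ?_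
    rw [map_sub, hz, cl_smul' _ hcl, sub_zero]
  · rw [Y152.AS.comp_smul_right, Y152.AS.comp_smul_left, W550.Corr.comp_sub,
      W550.Corr.sub_comp, Y152.AS.comp_smul_right, Y152.AS.comp_smul_left, e1, e2, smul_neg,
      smul_neg, smul_smul, smul_smul, inv_mul_cancel₀ hc]
    module
  · refine cl_smul' _ ?_
    rw [map_add, hz, cl_smul' _ hcl, add_zero]
  · rw [Y152.AS.comp_smul_right, Y152.AS.comp_smul_left, W550.Corr.comp_add,
      W550.Corr.add_comp, Y152.AS.comp_smul_right, Y152.AS.comp_smul_left, e1, e2, smul_neg,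
      smul_neg, smul_smul, smul_smul, inv_mul_cancel₀ hc]
    module
  · module

section curve

variable [GroupLaw E] {θ : C.A E} {u : E ⟶ E} {d : ℕ}

/-- Homologically trivial correspondences commuting with the sum of the complex
multiplications. -/
def cF (H : WeilTheoryData.{u, v, w} C K) (θ : C.A E) (u : E ⟶ E) (n : ℕ) (o : I → 𝒱.Obj) :
    Fam C (fun i => (pw E n).prod (o i)) :=
  fun i j => {z | H.cl z = 0 ∧ C.comp (Dn C θ u n (o i)) z = C.comp z (Dn C θ u n (o j))}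

/-- Homologically trivial correspondences anticommuting with the sum of the complex
multiplications. -/
def aF (H : WeilTheoryData.{u, v, w} C K) (θ : C.A E) (u : E ⟶ E) (n : ℕ) (o : I → 𝒱.Obj) :
    Fam C (fun i => (pw E n).prod (o i)) :=
  fun i j => {z | H.cl z = 0 ∧ C.comp (Dn C θ u n (o i)) z = -C.comp z (Dn C θ u n (o j))}

lemma nilp_cF (h : Setup θ u d) (n : ℕ) {N : ℕ} (hN : Nilp C (homF H o) N) :
    Nilp C (cF H θ u n o) N := by
  intro i
  exact Kill.mono (J := ajF H (pw E n) o) (J' := cF H θ u n o)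
    (fun i j z hz => comm_aj h n hz.1 hz.2) (nilp_aj (pw E n) hN i)

lemma nilp_add (h : Setup θ u d) (n : ℕ) {N : ℕ} (hN : Nilp C (homF H o) (N + 1)) :
    Nilp C (addF (cF H θ u n o) (aF H θ u n o)) (2 * (N + 1)) := by
  refine parity ?_ ?_ (nilp_cF h n hN)
  · rintro i j l g t ⟨hg1, hg2⟩ ⟨ht1, ht2⟩
    refine ⟨cl_comp_right _ hg1, ?_⟩
    rw [← W550.Corr.comp_assoc, hg2, neg_comp', W550.Corr.comp_assoc, ht2,
      W550.Corr.comp_assoc]
  · rintro i j l g t ⟨hg1, hg2⟩ ⟨ht1, ht2⟩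
    refine ⟨cl_comp_right _ hg1, ?_⟩
    rw [← W550.Corr.comp_assoc, hg2, neg_comp', W550.Corr.comp_assoc, ht2, comp_neg', neg_neg,
      W550.Corr.comp_assoc]

/-- The relation for `Dn`. -/
lemma Dn_rel (h : Setup θ u d) (n : ℕ) (Y : 𝒱.Obj) :
    aeval (tc (Dn C θ u n Y)) (∏ i, gP (d : ℚ) (n + 1) i) = 0 := by
  rw [prod_gP]
  refine (aeval_algHom_apply (tL C (pw E n) Y) (tc (uP C θ u n)) _).trans ?_
  rw [uP_rel h n]
  exact (tL C (pw E n) Y).map_zero

/-- The index of nilpotence of the homologically trivial correspondences between the products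
`E ^ (n + 1) × o i`. -/
theorem step (h : Setup θ u d) (n : ℕ) {N : ℕ} (hN : Nilp C (homF H o) (N + 1)) :
    Nilp C (homF H fun i => (pw E n).prod (o i)) ((2 * (n + 1) + 1) * (N + 1)) := by
  have hd : (0 : ℚ) < d := by exact_mod_cast h.pos
  choose ϖ h1 h2 h3 h4 using fun i => exists_idem (tc (Dn C θ u n (o i))) (gP (d : ℚ) (n + 1))
    (gP_coprime hd (n + 1)) (Dn_rel h n (o i))
  let ϖ' : Fin (n + 2) → ∀ i, C.A (((pw E n).prod (o i)).prod ((pw E n).prod (o i))) :=
    fun s i => ϖ i s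
  have hidem : ∀ s i, C.comp (ϖ' s i) (ϖ' s i) = ϖ' s i := fun s i => h2 i s
  have hcomm : ∀ s i, C.comp (Dn C θ u n (o i)) (ϖ' s i) =
      C.comp (ϖ' s i) (Dn C θ u n (o i)) := by
    intro s i
    have := h4 i s X
    rw [aeval_X] at this
    exact this.symm
  have hzero : ∀ i, C.comp (Dn C θ u n (o i)) (ϖ' 0 i) = 0 := by
    intro i
    have := h3 i 0
    rw [gP, Fin.cons_zero, aeval_X] at this
    rw [hcomm]
    exact this
  have hsucc : ∀ (e : Fin (n + 1)) i, C.comp (Dn C θ u n (o i)) (C.comp (Dn C θ u n (o i))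
      (ϖ' e.succ i)) = -(((d : ℚ) * ((e : ℚ) + 1) ^ 2) • ϖ' e.succ i) := by
    intro e i
    have h5 := h3 i e.succ
    rw [gP, Fin.cons_succ, map_add, map_pow, aeval_X, aeval_C, add_mul, ← Algebra.smul_def,
      pow_two] at h5
    have h6 : C.comp (ϖ' e.succ i) (C.comp (Dn C θ u n (o i)) (Dn C θ u n (o i))) +
        ((d : ℚ) * ((e : ℚ) + 1) ^ 2) • ϖ' e.succ i = 0 := h5
    rw [hcomm, ← W550.Corr.comp_assoc, hcomm, W550.Corr.comp_assoc]
    exact eq_neg_of_add_eq_zero_left h6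
  have hc0 : ∀ e : Fin (n + 1), (d : ℚ) * ((e : ℚ) + 1) ^ 2 ≠ 0 := fun e => by positivity
  have hsum := states ϖ' (J := homF H fun i => (pw E n).prod (o i)) (fun i => h1 i) homF_right
    (Fin.cons (N + 1) fun _ => 2 * (N + 1)) (fun s => ?_) (fun s i => ?_)
  · have e1 : ∑ s : Fin (n + 2), (Fin.cons (N + 1) (fun _ => 2 * (N + 1)) : Fin (n + 2) → ℕ) s =
        (2 * (n + 1) + 1) * (N + 1) := by
      rw [Fin.sum_univ_succ]
      simp only [Fin.cons_zero, Fin.cons_succ, Finset.sum_const, Finset.card_univ,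
        Fintype.card_fin, smul_eq_mul]
      ring
    rw [e1] at hsum
    exact hsum
  · refine Fin.cases ?_ (fun e => ?_) s
    · rw [Fin.cons_zero]; omega
    · rw [Fin.cons_succ]; omega
  · refine Fin.cases ?_ (fun e => ?_) s
    · rw [Fin.cons_zero]
      refine corner ϖ' 0 (J' := cF H θ u n o) (hidem 0) (fun i j g hg => ⟨?_, ?_⟩) (hidem 0 i)
        ((nilp_cF h n hN).kill _)
      · exact cl_comp_right _ (cl_comp_left _ hg)
      · rw [W550.Corr.comp_assoc, ← W550.Corr.comp_assoc (Γ := Dn C θ u n (o i)), hzero,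
          W550.Corr.zero_comp, ← W550.Corr.comp_assoc, W550.Corr.comp_assoc (Δ := ϖ' 0 j), ← hcomm,
          hzero, W550.Corr.comp_zero]
    · rw [Fin.cons_succ]
      refine corner ϖ' e.succ (J' := addF (cF H θ u n o) (aF H θ u n o)) (hidem _)
        (fun i j g hg => ?_) (hidem _ i) ((nilp_add h n hN).kill _)
      have k1 : C.comp (Dn C θ u n (o i)) (C.comp (Dn C θ u n (o i))
          (C.comp (C.comp (ϖ' e.succ i) g) (ϖ' e.succ j))) =
          -(((d : ℚ) * ((e : ℚ) + 1) ^ 2) • C.comp (C.comp (ϖ' e.succ i) g) (ϖ' e.succ j)) := by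
        rw [W550.Corr.comp_assoc C (ϖ' e.succ i),
          ← W550.Corr.comp_assoc C (Dn C θ u n (o i)) (Dn C θ u n (o i)),
          ← W550.Corr.comp_assoc C (C.comp (Dn C θ u n (o i)) (Dn C θ u n (o i))),
          W550.Corr.comp_assoc C (Dn C θ u n (o i)) (Dn C θ u n (o i)), hsucc, neg_comp',
          Y152.AS.comp_smul_left]
      have k2 : C.comp (C.comp (C.comp (C.comp (ϖ' e.succ i) g) (ϖ' e.succ j))
          (Dn C θ u n (o j))) (Dn C θ u n (o j)) =
          -(((d : ℚ) * ((e : ℚ) + 1) ^ 2) • C.comp (C.comp (ϖ' e.succ i) g) (ϖ' e.succ j)) := by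
        rw [W550.Corr.comp_assoc C (C.comp (ϖ' e.succ i) g), ← hcomm,
          W550.Corr.comp_assoc C (C.comp (ϖ' e.succ i) g),
          W550.Corr.comp_assoc C (Dn C θ u n (o j)), ← hcomm, hsucc, comp_neg',
          Y152.AS.comp_smul_right]
      obtain ⟨a, b, ha, hb, hab⟩ := split_pm (H := H) (hc0 e) k1 k2
        (cl_comp_right _ (cl_comp_left _ hg))
      exact ⟨a, ha, b, hb, hab⟩

end curve

end Pool.Agent.K1H14.BB
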